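import Pool.Agent.Y233.Cd.Defs
import Pool.Agent.Helper346.Cd.CA
import Pool.Agent.Helper346.Cd.CC
import Pool.Agent.Helper346.Cd.CD
import Pool.Agent.Helper346.Cd.CE
import Pool.Agent.Helper346.Cd.CF
import Pool.Agent.Helper346.Cd.CJ

set_option autoImplicit false

open MvPolynomial Pool.Agent.Helper346.Cd

namespace Pool.Agent.Y233.Cd

theorem vanish_trivial_p {p : ℕ} [Fact p.Prime] {k K : Type*} [Field k] [Field K] [Algebra k K]
    [IsGalois k K]
    [CharP k p] [IsSepClosed K] (N : Type*) [AddCommGroup N] [DistribMulAction Gal(K/k) N]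
    (htriv : ∀ (g : Gal(K/k)) (n : N), g • n = n) (e : N ≃+ ZMod p) (q : ℕ) (hq : 1 ≤ q) :
    HSuccVanishes Gal(K/k) N q := by
  haveI : CharP K p := charP_of_injective_algebraMap (algebraMap k K).injective p
  have hpp : p.Prime := Fact.out
  obtain ⟨q₀, rfl⟩ : ∃ q₀, q = q₀ + 1 := ⟨q - 1, by omega⟩
  intro f hf hdf
  -- the embedding
  let ι : N →+ K := (ZMod.castHom (dvd_refl p) K).toAddMonoidHom.comp e.toAddMonoidHom
  have hιdef : ∀ n, ι n = ZMod.castHom (dvd_refl p) K (e n) := fun _ => rfl
  have hιinj : Function.Injective ι := by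
    intro a b hab
    rw [hιdef, hιdef] at hab
    exact e.injective ((ZMod.castHom (dvd_refl p) K).injective hab)
  have hιfix : ∀ (σ : Gal(K/k)) (n : N), σ • ι n = ι n := by
    intro σ n
    rw [hιdef, AlgEquiv.smul_def]
    have : ((σ : K →+* K).comp (ZMod.castHom (dvd_refl p) K)) = ZMod.castHom (dvd_refl p) K :=
      Subsingleton.elim _ _
    exact congrArg (fun φ : ZMod p →+* K => φ (e n)) this
  have hιp : ∀ n : N, (ι n) ^ p = ι n := by
    intro n
    rw [hιdef, ← map_pow]
    congr 1
    exact ZMod.pow_card (e n)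
  have hιsurj : ∀ x : K, x ^ p = x → ∃ n : N, ι n = x := by
    intro x hx
    have h1 : x ∈ (⊥ : Subfield K) := (Subfield.mem_bot_iff_pow_eq_self K p).2 hx
    have h2 : (⊥ : Subfield K) ≤ (ZMod.castHom (dvd_refl p) K).fieldRange := bot_le
    obtain ⟨y, hy⟩ := h2 h1
    refine ⟨e.symm y, ?_⟩
    rw [hιdef, AddEquiv.apply_symm_apply]
    exact hy
  -- the Artin-Schreier map
  let P : K →+ K :=
    { toFun := fun x => x ^ p - x
      map_zero' := by rw [zero_pow hpp.ne_zero, sub_zero]
      map_add' := by
        intro x y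
        rw [add_pow_char x y p]
        ring }
  have hPdef : ∀ x, P x = x ^ p - x := fun _ => rfl
  have hPσ : ∀ (σ : Gal(K/k)) (x : K), P (σ • x) = σ • P x := by
    intro σ x
    rw [hPdef, hPdef, AlgEquiv.smul_def, AlgEquiv.smul_def, map_sub, map_pow]
  have hPsurj : ∀ y : K, ∃ x, P x = y := by
    intro y
    obtain ⟨x, hx⟩ := IsSepClosed.exists_root_C_mul_X_pow_add_C_mul_X_add_C' (k := K) p p
      (1 : K) (-1) (-y) (dvd_refl p) hpp.two_le (by norm_num)
    refine ⟨x, ?_⟩
    rw [hPdef]
    linear_combination hx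
  choose s hs using hPsurj
  -- the cocycle with values in `K`
  have hιf : IsCochain (q₀ + 1 + 1) (fun x => ι (f x)) := by
    constructor
    · exact hf.1.comp ι
    · intro g x
      show ι (f (fun i => g * x i)) = g • ι (f x)
      rw [hf.2 g x, htriv, hιfix]
  have hdιf : diff (q₀ + 1 + 1) (fun x => ι (f x)) = 0 := by
    funext x
    rw [diff_map, hdf]
    simp
  obtain ⟨g, hg, hdg⟩ := vanish_separableClosure (k := k) (K := K) (q₀ + 1) _ hιf hdιf
  have hPg : IsCochain (q₀ + 1) (fun x => P (g x)) := by
    constructor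
    · exact hg.1.comp P
    · intro σ x
      show P (g (fun i => σ * x i)) = σ • P (g x)
      rw [hg.2 σ x, hPσ]
  have hdPg : diff (q₀ + 1) (fun x => P (g x)) = 0 := by
    funext x
    rw [diff_map, hdg, hPdef, hιp, sub_self]
    rfl
  obtain ⟨h, hh, hdh⟩ := vanish_separableClosure (k := k) (K := K) q₀ _ hPg hdPg
  -- lifting through `P`
  have hdisc : ∀ (w : K) (x : Fin (q₀ + 1) → Gal(K/k)),
      ∀ᶠ y in nhds x, (y 0) • w = (x 0) • w := by
    intro w x
    have h1 := stabilizer_isOpen_of_isIntegral (K := k) (L := K) w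
    have h2 : Continuous (fun y : Fin (q₀ + 1) → Gal(K/k) => (x 0)⁻¹ * y 0) := by fun_prop
    have h3 := (h1.preimage h2).mem_nhds (x := x) (by simp)
    filter_upwards [h3] with y hy
    have h4 : ((x 0)⁻¹ * y 0) • w = w := hy
    rw [mul_smul, inv_smul_eq_iff] at h4
    exact h4
  have hdisc' : ∀ (w : K) (x : Fin (q₀ + 1) → Gal(K/k)),
      ∀ᶠ y in nhds x, (y 0)⁻¹ • w = (x 0)⁻¹ • w := by
    intro w x
    have h1 := stabilizer_isOpen_of_isIntegral (K := k) (L := K) w
    have h2 : Continuous (fun y : Fin (q₀ + 1) → Gal(K/k) => x 0 * (y 0)⁻¹) := by fun_prop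
    have h3 := (h1.preimage h2).mem_nhds (x := x) (by simp)
    filter_upwards [h3] with y hy
    have h4 : (x 0 * (y 0)⁻¹) • w = w := hy
    rw [mul_smul] at h4
    rw [eq_inv_smul_iff]
    exact h4
  have hh1 : IsCochain q₀ (fun x : Fin (q₀ + 1) → Gal(K/k) => x 0 • s ((x 0)⁻¹ • h x)) := by
    constructor
    · rw [IsLocallyConstant.iff_eventually_eq]
      intro x
      filter_upwards [(IsLocallyConstant.iff_eventually_eq _).1 hh.1 x, hdisc' (h x) x,
        hdisc (s ((x 0)⁻¹ • h x)) x] with y h1 h2 h3
      rw [h1, h2, h3]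
    · intro σ x
      show (σ * x 0) • s ((σ * x 0)⁻¹ • h (fun i => σ * x i)) = σ • (x 0 • s ((x 0)⁻¹ • h x))
      rw [hh.2 σ x, mul_inv_rev, mul_smul (x 0)⁻¹, inv_smul_smul, mul_smul]
  have hPh1 : ∀ x : Fin (q₀ + 1) → Gal(K/k), P (x 0 • s ((x 0)⁻¹ • h x)) = h x := by
    intro x
    rw [hPσ, hs, smul_inv_smul]
  have hdh1 := hh1.diff
  -- the corrected cochain
  have hg1 : ∀ x, ∃ n : N, ι n = g x -
      diff q₀ (fun x : Fin (q₀ + 1) → Gal(K/k) => x 0 • s ((x 0)⁻¹ • h x)) x := by
    intro x
    apply hιsurj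
    rw [← sub_eq_zero, ← hPdef, map_sub, ← diff_map]
    have h1 : (fun y : Fin (q₀ + 1) → Gal(K/k) => P (y 0 • s ((y 0)⁻¹ • h y))) = h :=
      funext hPh1
    rw [h1, hdh, sub_self]
  choose g2 hg2 using hg1
  refine ⟨g2, ⟨?_, ?_⟩, ?_⟩
  · rw [IsLocallyConstant.iff_eventually_eq]
    intro x
    filter_upwards [(IsLocallyConstant.iff_eventually_eq _).1 hg.1 x,
      (IsLocallyConstant.iff_eventually_eq _).1 hdh1.1 x] with y h1 h2
    apply hιinj
    rw [hg2, hg2, h1, h2]
  · intro σ x
    apply hιinj
    rw [htriv, hg2, hg2, hg.2 σ x, hdh1.2 σ x, ← smul_sub, ← hg2, hιfix]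
  · funext x
    apply hιinj
    rw [← diff_map]
    have h1 : (fun y => ι (g2 y)) = fun y => g y -
      diff q₀ (fun x : Fin (q₀ + 1) → Gal(K/k) => x 0 • s ((x 0)⁻¹ • h x)) y := funext hg2
    rw [h1, diff_sub, hdg, diff_diff]
    simp

theorem vanish_prime_to {p : ℕ} [Fact p.Prime] {G : Type*} [Group G] [TopologicalSpace G]
    [IsTopologicalGroup G]
    [CompactSpace G] [TotallyDisconnectedSpace G]
    (hG : IsProP p G)
    (M : Type*) [AddCommGroup M] [DistribMulAction G M] [Finite M] (h3 : ¬ p ∣ Nat.card M)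
    (q : ℕ) : HSuccVanishes G M q := by
  have hpp : p.Prime := Fact.out
  apply vanish_of_average
  intro U hU hUo
  obtain ⟨m, hm⟩ := hG U hU hUo
  have hidx : Nat.card (G ⧸ U) = p ^ m := by
    rw [← hm, Subgroup.index_eq_card]
  have hfin : Finite (G ⧸ U) := by
    apply Nat.finite_of_card_ne_zero
    rw [hidx]
    exact pow_ne_zero _ hpp.ne_zero
  have hcop : Nat.Coprime (p ^ m) (Nat.card M) := by
    apply Nat.Coprime.pow_left
    exact (Nat.Prime.coprime_iff_not_dvd hpp).2 h3
  have hbez := Nat.gcd_eq_gcd_ab (p ^ m) (Nat.card M)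
  rw [hcop] at hbez
  set u : ℤ := Nat.gcdA (p ^ m) (Nat.card M) with hu
  set v : ℤ := Nat.gcdB (p ^ m) (Nat.card M) with hv
  refine ⟨fun _ => zsmulAddGroupHom u, ?_, ?_⟩
  · intro a
    have hft : Fintype (G ⧸ U) := Fintype.ofFinite _
    rw [finsum_eq_sum_of_fintype, Finset.sum_const, Finset.card_univ, ← Nat.card_eq_fintype_card,
      hidx]
    show (p ^ m) • (u • a) = a
    have h0 : (Nat.card M) • a = 0 := card_nsmul_eq_zero'
    have h1 : (p ^ m : ℕ) • (u • a) = (((p ^ m : ℕ) : ℤ) * u) • a := by
      rw [mul_smul, natCast_zsmul]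
    have h2 : (((p ^ m : ℕ) : ℤ) * u) = 1 - v * ((Nat.card M : ℕ) : ℤ) := by
      push_cast at hbez ⊢
      linarith
    rw [h1, h2, sub_smul, one_smul, mul_smul, natCast_zsmul, h0, smul_zero, sub_zero]
  · intro g t a
    show g • (u • a) = u • (g • a)
    exact smul_comm g u a

theorem exists_fixed_vector {p : ℕ} [Fact p.Prime] {G : Type*} [Group G] [TopologicalSpace G]
    [IsTopologicalGroup G] (hG : IsProP p G)
    (M : Type*) [AddCommGroup M] [DistribMulAction G M] [Finite M] (hM : IsDiscreteModule G M)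
    (h3 : p ∣ Nat.card M) : ∃ v : M, v ≠ 0 ∧ p • v = 0 ∧ ∀ g : G, g • v = v := by
  set φ : G →* Equiv.Perm M := MulAction.toPermHom G M with hφ
  have hopen : IsOpen (φ.ker : Set G) := by
    have h1 : (φ.ker : Set G) = ⋂ m : M, {g : G | g • m = m} := by
      ext g
      simp only [SetLike.mem_coe, MonoidHom.mem_ker, Set.mem_iInter, Set.mem_ofPred_eq]
      constructor
      · intro h m
        have : φ g m = (1 : Equiv.Perm M) m := by rw [h]
        exact this
      · intro h
        ext m
        exact h m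
    rw [h1]
    exact isOpen_iInter_of_finite fun m => hM m
  obtain ⟨a, ha⟩ := hG φ.ker inferInstance hopen
  have hcard : Nat.card φ.range = p ^ a := by
    rw [← ha, Subgroup.index_ker]
  have hP : IsPGroup p φ.range := IsPGroup.of_card hcard
  let T : AddSubgroup M := (nsmulAddMonoidHom (α := M) p).ker
  have hTmem : ∀ v : M, v ∈ T ↔ p • v = 0 := fun v => AddMonoidHom.mem_ker
  let S : SubMulAction φ.range M :=
    { carrier := {v | p • v = 0}
      smul_mem' := by
        rintro ⟨_, g, rfl⟩ v hv
        show p • (g • v) = 0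
        have hv' : p • v = 0 := hv
        rw [← smul_comm g p v, hv', smul_zero] }
  have hScard : p ∣ Nat.card S := by
    obtain ⟨x, hx⟩ := exists_prime_addOrderOf_dvd_card' p h3
    have hxT : x ∈ T := by
      rw [hTmem, ← hx]; exact addOrderOf_nsmul_eq_zero x
    have h4 : addOrderOf (⟨x, hxT⟩ : T) = p := by
      rw [← hx]; exact (AddSubgroup.addOrderOf_mk x hxT)
    have h5 : Nat.card T = Nat.card S :=
      Nat.card_congr (Equiv.subtypeEquivRight fun v => hTmem v)
    rw [← h5, ← h4]
    exact addOrderOf_dvd_natCard _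
  let z : S := ⟨0, smul_zero _⟩
  have hz : z ∈ MulAction.fixedPoints φ.range S := by
    rintro ⟨_, g, rfl⟩
    apply Subtype.ext
    show g • (0 : M) = 0
    exact smul_zero g
  obtain ⟨b, hb, hzb⟩ := hP.exists_fixed_point_of_prime_dvd_card_of_fixed_point S hScard hz
  refine ⟨b.1, fun h => hzb (Subtype.ext h.symm), b.2, fun g => ?_⟩
  have h6 := hb ⟨φ g, g, rfl⟩
  exact congrArg Subtype.val h6

theorem vanish_finite_aux {p : ℕ} [Fact p.Prime] {k K : Type*} [Field k] [Field K] [Algebra k K]
    [IsGalois k K]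
    [CharP k p] [IsSepClosed K]
    (hG : IsProP p Gal(K/k)) (q : ℕ) (hq : 1 ≤ q) (m : ℕ) :
    ∀ (M : Type) [AddCommGroup M] [DistribMulAction Gal(K/k) M] [Finite M]
    (_ : IsDiscreteModule Gal(K/k) M) (_ : Nat.card M = m),
    HSuccVanishes Gal(K/k) M q := by
  have hpp : p.Prime := Fact.out
  induction m using Nat.strong_induction_on with
  | _ m ih =>
    intro M _ _ _ hM hm
    by_cases h3 : p ∣ Nat.card M
    · obtain ⟨v, hv0, hv3, hvfix⟩ := exists_fixed_vector hG M hM h3
      set N : AddSubgroup M := AddSubgroup.zmultiples v with hN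
      have hNfix : ∀ (g : Gal(K/k)) (x : M), x ∈ N → g • x = x := by
        intro g x hx
        obtain ⟨z, rfl⟩ := AddSubgroup.mem_zmultiples_iff.mp hx
        rw [← DistribSMul.toAddMonoidHom_apply M g (z • v), map_zsmul,
          DistribSMul.toAddMonoidHom_apply, hvfix g]
      have hcN : Nat.card N = p := by
        rw [hN, Nat.card_zmultiples]
        exact addOrderOf_eq_prime hv3 hv0
      have hcM : Nat.card M = Nat.card (M ⧸ N) * Nat.card N :=
        AddSubgroup.card_eq_card_quotient_mul_card_addSubgroup N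
      have hQpos : 0 < Nat.card (M ⧸ N) := Nat.card_pos
      have hlt : Nat.card (M ⧸ N) < m := by
        rw [← hm, hcM, hcN]
        have := hpp.two_le
        nlinarith
      let actN : DistribMulAction Gal(K/k) N :=
        { smul := fun _ n => n
          one_smul := fun _ => rfl
          mul_smul := fun _ _ _ => rfl
          smul_zero := fun _ => rfl
          smul_add := fun _ _ _ => rfl }
      have hle : ∀ g : Gal(K/k), N ≤ N.comap (DistribSMul.toAddMonoidHom M g) := by
        intro g x hx
        rw [AddSubgroup.mem_comap, DistribSMul.toAddMonoidHom_apply, hNfix g x hx]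
        exact hx
      let actQ : DistribMulAction Gal(K/k) (M ⧸ N) :=
        { smul := fun g x => QuotientAddGroup.map N N (DistribSMul.toAddMonoidHom M g) (hle g) x
          one_smul := fun x => by
            induction x using QuotientAddGroup.induction_on with
            | H z => exact congrArg (QuotientAddGroup.mk (s := N)) (one_smul _ z)
          mul_smul := fun g h x => by
            induction x using QuotientAddGroup.induction_on with
            | H z => exact congrArg (QuotientAddGroup.mk (s := N)) (mul_smul g h z)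
          smul_zero := fun g => map_zero _
          smul_add := fun g x y => map_add _ x y }
      obtain ⟨e⟩ : Nonempty (N ≃+ ZMod p) := by
        have e0 := zmodAddCyclicAddEquiv (inferInstance : IsAddCyclic N)
        rw [hcN] at e0
        exact ⟨e0.symm⟩
      have hA : HSuccVanishes Gal(K/k) N q :=
        vanish_trivial_p N (fun g n => rfl) e q hq
      have hQd : IsDiscreteModule Gal(K/k) (M ⧸ N) := by
        intro x
        induction x using QuotientAddGroup.induction_on with
        | H z =>
          have h1 : IsOpen ((MulAction.stabilizer Gal(K/k) z : Subgroup Gal(K/k)) :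
              Set Gal(K/k)) := hM z
          have h2 : MulAction.stabilizer Gal(K/k) z ≤
              MulAction.stabilizer Gal(K/k) (QuotientAddGroup.mk (s := N) z) := by
            intro g hg
            rw [MulAction.mem_stabilizer_iff] at hg ⊢
            exact congrArg (QuotientAddGroup.mk (s := N)) hg
          exact Subgroup.isOpen_mono h2 h1
      have hC : HSuccVanishes Gal(K/k) (M ⧸ N) q := ih _ hlt (M ⧸ N) hQd rfl
      refine vanish_of_exact hM N.subtype (QuotientAddGroup.mk' N) N.subtype_injective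
        (QuotientAddGroup.mk'_surjective N) ?_ ?_ ?_ q hA hC
      · intro b
        constructor
        · intro hb
          have : b ∈ N := (QuotientAddGroup.eq_zero_iff b).mp hb
          exact ⟨⟨b, this⟩, rfl⟩
        · rintro ⟨a, rfl⟩
          exact (QuotientAddGroup.eq_zero_iff _).mpr a.2
      · intro g a
        exact (hNfix g a a.2).symm
      · intro g b
        rfl
    · have : TotallyDisconnectedSpace Gal(K/k) := by
        infer_instance
      exact vanish_prime_to hG M h3 q

theorem vanish_finite {p : ℕ} [Fact p.Prime] {k K : Type*} [Field k] [Field K] [Algebra k K]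
    [IsGalois k K]
    [CharP k p] [IsSepClosed K]
    (hG : IsProP p Gal(K/k))
    (M : Type) [AddCommGroup M] [DistribMulAction Gal(K/k) M] [Finite M]
    (hM : IsDiscreteModule Gal(K/k) M) (q : ℕ) (hq : 1 ≤ q) :
    HSuccVanishes Gal(K/k) M q :=
  vanish_finite_aux hG q hq (Nat.card M) M hM rfl

theorem finrank_eq_one_of_prime_to {p : ℕ} [Fact p.Prime] {k : Type*} [Field k] [CharP k p]
    (hk : ∀ f : Polynomial k, Irreducible f → f.Separable → ¬ p ∣ f.natDegree → f.natDegree = 1)
    (M : Type*) [Field M] [Algebra k M] [FiniteDimensional k M]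
    (h3 : ¬ p ∣ Module.finrank k M) : Module.finrank k M = 1 := by
  have hdvd : ∀ x : M, ¬ p ∣ (minpoly k x).natDegree := fun x h =>
    h3 (h.trans (minpoly.degree_dvd (Algebra.IsIntegral.isIntegral x)))
  have hsep : Algebra.IsSeparable k M := by
    rw [Algebra.isSeparable_def]
    intro x
    rcases Polynomial.separable_or p (minpoly.irreducible (Algebra.IsIntegral.isIntegral (R := k) x))
      with h | ⟨_, g, _, hg⟩
    · exact h
    · exfalso
      apply hdvd x
      rw [← hg, Polynomial.natDegree_expand]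
      exact dvd_mul_left _ _
  obtain ⟨x, hx⟩ := Field.exists_primitive_element k M
  have hint : IsIntegral k x := Algebra.IsIntegral.isIntegral x
  have h1 := IntermediateField.adjoin.finrank hint
  rw [hx, IntermediateField.finrank_top'] at h1
  rw [h1]
  exact hk _ (minpoly.irreducible hint) (Algebra.IsSeparable.isSeparable k x) (hdvd x)

theorem isProP_gal {p : ℕ} [Fact p.Prime] {k K : Type*} [Field k] [Field K] [Algebra k K]
    [IsGalois k K]
    (hk : ∀ (M : IntermediateField k K) [FiniteDimensional k M], ¬ p ∣ Module.finrank k M →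
      Module.finrank k M = 1) :
    IsProP p Gal(K/k) := by
  intro U hU hUo
  have hUc : IsClosed (U : Set Gal(K/k)) := Subgroup.isClosed_of_isOpen U hUo
  let H : ClosedSubgroup Gal(K/k) := ⟨U, hUc⟩
  have hfix : (IntermediateField.fixedField U).fixingSubgroup = U :=
    InfiniteGalois.fixingSubgroup_fixedField H
  have hfin : FiniteDimensional k (IntermediateField.fixedField U) ∧
      IsGalois k (IntermediateField.fixedField U) :=
    (InfiniteGalois.isOpen_and_normal_iff_finite_and_isGalois _).1 (by
      rw [hfix]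
      exact ⟨hUo, hU⟩)
  have := hfin.1
  have := hfin.2
  have hHn : H.Normal := hU
  have hidx : U.index = Nat.card Gal(IntermediateField.fixedField U/k) :=
    Nat.card_congr (InfiniteGalois.normalAutEquivQuotient H).toEquiv
  generalize hL : IntermediateField.fixedField U = L at *
  let P : Sylow p Gal(L/k) := default
  have h1 : Module.finrank (IntermediateField.fixedField (P : Subgroup Gal(L/k))) L =
      Nat.card (P : Subgroup Gal(L/k)) := IntermediateField.finrank_fixedField_eq_card _
  have h2 := Module.finrank_mul_finrank k (IntermediateField.fixedField (P : Subgroup Gal(L/k))) L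
  have h3 : Nat.card Gal(L/k) = Module.finrank k L := IsGalois.card_aut_eq_finrank k L
  have h4 := (P : Subgroup Gal(L/k)).card_mul_index
  have hPpos : 0 < Nat.card (P : Subgroup Gal(L/k)) := Nat.card_pos
  have h5 : Module.finrank k (IntermediateField.fixedField (P : Subgroup Gal(L/k))) =
      (P : Subgroup Gal(L/k)).index := by
    rw [h1, ← h3, ← h4, mul_comm] at h2
    exact Nat.eq_of_mul_eq_mul_left hPpos h2
  have h6 : ¬ p ∣ (P : Subgroup Gal(L/k)).index := P.not_dvd_index
  have h7 : Module.finrank k (IntermediateField.lift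
      (IntermediateField.fixedField (P : Subgroup Gal(L/k)))) =
      Module.finrank k (IntermediateField.fixedField (P : Subgroup Gal(L/k))) :=
    (IntermediateField.liftAlgEquiv
      (IntermediateField.fixedField (P : Subgroup Gal(L/k)))).toLinearEquiv.finrank_eq.symm
  have : FiniteDimensional k (IntermediateField.lift
      (IntermediateField.fixedField (P : Subgroup Gal(L/k)))) :=
    Module.Finite.equiv (IntermediateField.liftAlgEquiv
      (IntermediateField.fixedField (P : Subgroup Gal(L/k)))).toLinearEquiv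
  have h8 := hk (IntermediateField.lift (IntermediateField.fixedField (P : Subgroup Gal(L/k))))
    (by rw [h7, h5]; exact h6)
  rw [h7, h5] at h8
  rw [h8, mul_one] at h4
  obtain ⟨m, hm⟩ := IsPGroup.iff_card.1 P.isPGroup'
  exact ⟨m, by rw [hidx, ← h4, hm]⟩

theorem cdLeOne_of {p : ℕ} [Fact p.Prime] {k : Type} [Field k] [CharP k p]
    (hk : ∀ f : Polynomial k, Irreducible f → f.Separable → ¬ p ∣ f.natDegree → f.natDegree = 1) :
    CdLeOne Gal(SeparableClosure k/k) := by
  have hpro : IsProP p Gal(SeparableClosure k/k) :=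
    isProP_gal (fun M _ h => finrank_eq_one_of_prime_to hk M h)
  intro M _ _ hM ht q hq
  exact vanish_torsion_of_finite q (fun M' _ _ _ hM' => vanish_finite hpro M' hM' q hq) M hM ht

end Pool.Agent.Y233.Cd
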