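import Pool.Agent.Y233.Cd.Defs
import Pool.Agent.Helper346.Cd.CK

set_option autoImplicit false

open MvPolynomial Pool.Agent.Helper346.Cd

namespace Pool.Agent.Y233.Cd

lemma gp_prime' {κ S : Type} [Field κ] [CommRing S] [IsDomain S] [Algebra (Polynomial κ) S]
    [Module.Finite (Polynomial κ) S] [Module.IsTorsionFree (Polynomial κ) S] (N : ℕ)
    (h : ¬ N ∣ Module.finrank (Polynomial κ) S) :
    ∃ P : Ideal S, ∃ _ : P.IsPrime, ∃ _ : P.LiesOver (gpP κ),
      ¬ N ∣ Module.finrank (Polynomial κ ⧸ gpP κ) (S ⧸ P) := by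
  by_contra hcon
  push Not at hcon
  apply h
  let : Fintype ((gpP κ).primesOver S) :=
    (Algebra.QuasiFinite.finite_primesOver (gpP κ)).fintype
  rw [← Ideal.sum_ramification_inertia_eq_finrank (gpP κ) S]
  refine Finset.dvd_sum (fun q _ => ?_)
  have := q.2.1
  have := q.2.2
  have : q.1.IsMaximal := Ideal.IsMaximal.of_liesOver_isMaximal q.1 (gpP κ)
  rw [Ideal.inertiaDeg_eq_of_isMaximal (gpP κ) q.1]
  exact Dvd.dvd.mul_left (hcon q.1 q.2.1 q.2.2) _

lemma gp_res_rank {κ S l : Type} [Field κ] [CommRing S] [Algebra (Polynomial κ) S]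
    [Field l] [Algebra κ l] (P : Ideal S) [P.LiesOver (gpP κ)] (φ : S →+* l)
    (hs : Function.Surjective φ) (hk : RingHom.ker φ = P)
    (hc : ∀ a : κ, φ (algebraMap (Polynomial κ) S (Polynomial.C a)) = algebraMap κ l a) :
    Module.finrank (Polynomial κ ⧸ gpP κ) (S ⧸ P) = Module.finrank κ l := by
  refine Algebra.finrank_eq_of_equiv_equiv
    (RingHom.quotientKerEquivOfSurjective (f := Polynomial.evalRingHom (0 : κ))
      (fun x => ⟨Polynomial.C x, by simp⟩))
    ((Ideal.quotEquivOfEq hk.symm).trans (RingHom.quotientKerEquivOfSurjective hs)) ?_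
  refine RingHom.ext (fun x => ?_)
  obtain ⟨f, rfl⟩ := Ideal.Quotient.mk_surjective x
  change algebraMap κ l (f.eval 0) = φ (algebraMap (Polynomial κ) S f)
  have h1 : f - Polynomial.C (f.eval 0) ∈ gpP κ := by
    change Polynomial.eval 0 (f - Polynomial.C (f.eval 0)) = 0
    simp
  have h2 : algebraMap (Polynomial κ) S (f - Polynomial.C (f.eval 0)) ∈ RingHom.ker φ := by
    rw [hk]
    exact (Ideal.mem_of_liesOver P (gpP κ) _).1 h1
  rw [RingHom.mem_ker, map_sub, map_sub, sub_eq_zero] at h2
  rw [h2, hc]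

theorem exists_good_place_of {κ E : Type} [Field κ] [Field E]
    (K : Type) [Field K] [Algebra (Polynomial κ) K] [IsFractionRing (Polynomial κ) K]
    [Algebra K E] [FiniteDimensional K E] [Algebra.IsSeparable K E] (N : ℕ)
    (h3 : ¬ N ∣ Module.finrank K E)
    (ι : κ →+* E) (c : E)
    (hι : ∀ a : κ, ι a = algebraMap K E (algebraMap (Polynomial κ) K (Polynomial.C a)))
    (hc : c = algebraMap K E (algebraMap (Polynomial κ) K Polynomial.X)) :
    ∃ (O : ValuationSubring E) (l : Type) (_ : Field l) (_ : Algebra κ l) (r : O →+* l),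
      (FiniteDimensional κ l ∧ ¬ N ∣ Module.finrank κ l) ∧ (∀ z : O, r z = 0 ↔ z ∉ {u : O | IsUnit u}) ∧
      (∀ a : κ, ∃ h : ι a ∈ O, r ⟨ι a, h⟩ = algebraMap κ l a) ∧
      ∃ h : c ∈ O, r ⟨c, h⟩ = 0 := by
  classical
  letI : Algebra (Polynomial κ) E :=
    ((algebraMap K E).comp (algebraMap (Polynomial κ) K)).toAlgebra
  have hRE : ∀ f : Polynomial κ, algebraMap (Polynomial κ) E f =
    algebraMap K E (algebraMap (Polynomial κ) K f) := fun _ => rfl
  have : IsScalarTower (Polynomial κ) K E := IsScalarTower.of_algebraMap_eq (fun _ => rfl)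
  have hinjE : Function.Injective (algebraMap (Polynomial κ) E) :=
    (algebraMap K E).injective.comp (IsFractionRing.injective (Polynomial κ) K)
  have : FaithfulSMul (Polynomial κ) E := (faithfulSMul_iff_algebraMap_injective _ _).2 hinjE
  have : Module.IsTorsionFree (Polynomial κ) E := inferInstance
  let S := integralClosure (Polynomial κ) E
  have : IsDedekindDomain S := integralClosure.isDedekindDomain (Polynomial κ) K E
  have : IsFractionRing S E := integralClosure.isFractionRing_of_finite_extension K E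
  have : Module.Finite (Polynomial κ) S := IsIntegralClosure.finite (Polynomial κ) K E S
  have hrank : Module.finrank (Polynomial κ) S = Module.finrank K E :=
    IsIntegralClosure.rank (Polynomial κ) K E S
  obtain ⟨P, hP, hPo, hPf⟩ := gp_prime' (κ := κ) (S := S) N (by rw [hrank]; exact h3)
  have hXP : algebraMap (Polynomial κ) S Polynomial.X ∈ P := by
    refine (Ideal.mem_of_liesOver P (gpP κ) _).1 ?_
    change Polynomial.eval 0 Polynomial.X = 0
    simp
  have hSE : ∀ f : Polynomial κ, algebraMap S E (algebraMap (Polynomial κ) S f) =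
    algebraMap K E (algebraMap (Polynomial κ) K f) := fun _ => rfl
  have hP0 : P ≠ ⊥ := by
    intro h0
    rw [h0, Ideal.mem_bot] at hXP
    have h1 := hSE Polynomial.X
    rw [hXP, map_zero, ← hRE] at h1
    exact Polynomial.X_ne_zero (hinjE (h1.symm.trans (map_zero _).symm))
  let v : IsDedekindDomain.HeightOneSpectrum S := ⟨P, hP, hP0⟩
  have hmem : ∀ s : S, algebraMap S E s ∈ (v.valuation E).valuationSubring :=
    fun s => v.valuation_le_one s
  let ψ : S →+* (v.valuation E).valuationSubring :=
    (algebraMap S E).codRestrict (v.valuation E).valuationSubring hmem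
  let φ : S →+* IsLocalRing.ResidueField (v.valuation E).valuationSubring :=
    (IsLocalRing.residue (v.valuation E).valuationSubring).comp ψ
  letI : Algebra κ (IsLocalRing.ResidueField (v.valuation E).valuationSubring) :=
    (φ.comp ((algebraMap (Polynomial κ) S).comp Polynomial.C)).toAlgebra
  have hφs : Function.Surjective φ := by
    intro y
    obtain ⟨z, rfl⟩ := IsLocalRing.residue_surjective y
    obtain ⟨s, hs⟩ := gp_approx v (z : E) z.2
    refine ⟨s, ?_⟩
    have h1 : z - ψ s ∈ IsLocalRing.maximalIdeal (v.valuation E).valuationSubring :=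
      (gp_unit_iff (v.valuation E) _).2 hs
    have h2 := (IsLocalRing.residue_eq_zero_iff _).2 h1
    rw [map_sub, sub_eq_zero] at h2
    exact h2.symm
  have hφk : RingHom.ker φ = P := by
    ext s
    rw [RingHom.mem_ker]
    change IsLocalRing.residue _ (ψ s) = 0 ↔ s ∈ P
    rw [IsLocalRing.residue_eq_zero_iff, gp_unit_iff]
    exact v.valuation_lt_one_iff_mem s
  refine ⟨(v.valuation E).valuationSubring,
    IsLocalRing.ResidueField (v.valuation E).valuationSubring, inferInstance, inferInstance,
    IsLocalRing.residue _, ?_, ?_, ?_, ?_⟩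
  · have he := gp_res_rank (κ := κ) P φ hφs hφk (fun a => rfl)
    rw [he] at hPf
    refine ⟨?_, hPf⟩
    apply Module.finite_of_finrank_pos
    rcases Nat.eq_zero_or_pos (Module.finrank κ
      (IsLocalRing.ResidueField (v.valuation E).valuationSubring)) with h0 | h0
    · rw [h0] at hPf
      exact absurd (dvd_zero N) hPf
    · exact h0
  · intro z
    rw [IsLocalRing.residue_eq_zero_iff, IsLocalRing.mem_maximalIdeal, mem_nonunits_iff]
    rfl
  · intro a
    have h1 : ι a = algebraMap S E (algebraMap (Polynomial κ) S (Polynomial.C a)) := hι a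
    refine ⟨h1 ▸ hmem _, ?_⟩
    change _ = φ (algebraMap (Polynomial κ) S (Polynomial.C a))
    change _ = IsLocalRing.residue _ (ψ _)
    congr 1
    exact Subtype.ext h1
  · have h1 : c = algebraMap S E (algebraMap (Polynomial κ) S Polynomial.X) := hc
    refine ⟨h1 ▸ hmem _, ?_⟩
    have h2 : φ (algebraMap (Polynomial κ) S Polynomial.X) = 0 := by
      rw [← RingHom.mem_ker, hφk]; exact hXP
    rw [← h2]
    change _ = IsLocalRing.residue _ (ψ _)
    congr 1
    exact Subtype.ext h1

end Pool.Agent.Y233.Cd
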