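import Pool.Agent.Y233.Cd.Defs

set_option autoImplicit false

open MvPolynomial Pool.Agent.Helper346.Cd

namespace Pool.Agent.Y233.Cd

/-- In a finite extension `L/K` of characteristic `p` whose degree is not divisible by `p^s`, the
`p^i`-th powers are separable over `K` for some `i < s` such that the separable degree is not
divisible by `p^(s - i)`. -/
theorem exists_sep_pow {p : ℕ} [Fact p.Prime] (K L : Type*) [Field K] [Field L] [CharP K p]
    [Algebra K L] [FiniteDimensional K L] (s : ℕ) (h : ¬ p ^ s ∣ Module.finrank K L) :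
    ∃ i : ℕ, i < s ∧ (∀ z : L, z ^ p ^ i ∈ separableClosure K L) ∧
      ¬ p ^ (s - i) ∣ Module.finrank K (separableClosure K L) := by
  have hpp : p.Prime := Fact.out
  have : CharP (separableClosure K L) p :=
    charP_of_injective_algebraMap (algebraMap K (separableClosure K L)).injective p
  have : ExpChar (separableClosure K L) p := ExpChar.prime hpp
  obtain ⟨i, hi⟩ := IsPurelyInseparable.finrank_eq_pow (separableClosure K L) L p
  have h1 := Module.finrank_mul_finrank K (separableClosure K L) L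
  have his : i < s := by
    by_contra hcon
    push Not at hcon
    apply h
    rw [← h1, hi]
    exact Dvd.dvd.mul_left (pow_dvd_pow p hcon) _
  refine ⟨i, his, ?_, ?_⟩
  · intro z
    obtain ⟨n, y, hy⟩ := IsPurelyInseparable.minpoly_eq_X_pow_sub_C (separableClosure K L) p z
    have hdeg : (minpoly (separableClosure K L) z).natDegree = p ^ n := by
      rw [hy, Polynomial.natDegree_X_pow_sub_C]
    have hdvd : p ^ n ∣ p ^ i := by
      rw [← hdeg, ← hi]
      exact minpoly.degree_dvd (Algebra.IsIntegral.isIntegral z)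
    have hni : n ≤ i := (Nat.pow_dvd_pow_iff_le_right hpp.one_lt).1 hdvd
    have hz : z ^ p ^ n = (y : L) := by
      have h2 := minpoly.aeval (separableClosure K L) z
      rw [hy] at h2
      simp only [map_sub, map_pow, Polynomial.aeval_X, Polynomial.aeval_C] at h2
      exact sub_eq_zero.1 h2
    have h3 : z ^ p ^ i = (z ^ p ^ n) ^ p ^ (i - n) := by
      rw [← pow_mul, ← pow_add, Nat.add_sub_cancel' hni]
    rw [h3, hz]
    exact pow_mem y.2 _
  · intro hcon
    apply h
    rw [← h1, hi]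
    have : p ^ s = p ^ (s - i) * p ^ i := by
      rw [← pow_add, Nat.sub_add_cancel his.le]
    rw [this]
    exact Nat.mul_dvd_mul_right hcon _

theorem CL_basis {p : ℕ} [Fact p.Prime] {κ l : Type*} [Field κ] [Field l] [CharP κ p]
    [Algebra κ l]
    [Algebra.IsSeparable κ l] {m : ℕ} (a : Fin m → κ)
    (ha : ∀ y : Fin m → κ, ∑ i, a i * y i ^ p = 0 → y = 0) (z : Fin m → l)
    (hz : ∑ i, algebraMap κ l (a i) * z i ^ p = 0) : z = 0 := by
  classical
  haveI : CharP l p := charP_of_injective_algebraMap (algebraMap κ l).injective p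
  have hpp : p.Prime := Fact.out
  haveI : ExpChar κ p := ExpChar.prime hpp
  let W : Submodule κ l := Submodule.span κ (Set.range z)
  haveI : FiniteDimensional κ W := FiniteDimensional.span_of_finite κ (Set.finite_range z)
  let b := Module.finBasis κ W
  have hb : LinearIndependent κ (fun j => (b j : l)) :=
    b.linearIndependent.map' W.subtype W.ker_subtype
  have hb3 := hb.map_pow_expChar_pow_of_isSeparable p 1
  have hmem : ∀ i, z i ∈ W := fun i => Submodule.subset_span ⟨i, rfl⟩
  obtain ⟨w, hw⟩ : ∃ w : Fin m → Fin (Module.finrank κ W) → κ,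
      ∀ i, z i = ∑ j, w i j • (b j : l) := by
    refine ⟨fun i j => b.repr ⟨z i, hmem i⟩ j, fun i => ?_⟩
    have h := congrArg (fun v : W => (v : l)) (b.sum_repr ⟨z i, hmem i⟩)
    simp only [AddSubmonoidClass.coe_finsetSum, Submodule.coe_smul] at h
    exact h.symm
  have h1 : ∑ j, (∑ i, a i * w i j ^ p) • (b j : l) ^ p ^ 1 = 0 := by
    rw [← hz]
    simp only [Finset.sum_smul]
    rw [Finset.sum_comm]
    apply Finset.sum_congr rfl
    intro i _
    rw [hw i, sum_pow_char, Finset.mul_sum]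
    apply Finset.sum_congr rfl
    intro j _
    rw [smul_pow, Algebra.smul_def, Algebra.smul_def, map_mul, pow_one]
    ring
  have h2 := Fintype.linearIndependent_iff.1 hb3 _ h1
  funext i
  rw [hw i, Pi.zero_apply]
  apply Finset.sum_eq_zero
  intro j _
  have h3 := ha (fun i => w i j) (h2 j)
  have h4 := congrFun h3 i
  simp only [Pi.zero_apply] at h4
  rw [h4, zero_smul]


theorem aniso_res {p : ℕ} [Fact p.Prime] {κ l : Type*} [Field κ] [Field l] [CharP κ p]
    [Algebra κ l] [FiniteDimensional κ l] {m : ℕ} (a : Fin m → κ)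
    (ha : ∀ y : Fin m → κ, ∑ i, a i * y i ^ p = 0 → y = 0) (s i d : ℕ) (hd : 0 < d)
    (hsd : p ^ s ∣ d) (his : i < s) (hl : ¬ p ^ (s - i) ∣ Module.finrank κ l) (z : Fin m → l)
    (hz : ∑ j, algebraMap κ l (a j ^ p ^ i) * z j ^ d = 0) : z = 0 := by
  have hpp : p.Prime := Fact.out
  have : CharP l p := charP_of_injective_algebraMap (algebraMap κ l).injective p
  have : ExpChar l p := ExpChar.prime hpp
  obtain ⟨i', hi', hsep, -⟩ := exists_sep_pow (p := p) κ l (s - i) hl
  obtain ⟨m0, hm0⟩ := hsd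
  obtain ⟨t, ht⟩ : ∃ t, s = (i + i') + 1 + t := ⟨s - (i + i') - 1, by omega⟩
  have hd' : d = p ^ (i + i') * (p * (p ^ t * m0)) := by
    rw [hm0, ht, pow_add, pow_add _ _ 1]
    ring
  set m' := p ^ t * m0 with hm'
  have hm'0 : m' ≠ 0 := by
    intro h0
    rw [h0, mul_zero, mul_zero] at hd'
    omega
  let w : Fin m → separableClosure κ l := fun j => ⟨z j ^ p ^ i', hsep (z j)⟩
  have h1 : (∑ j, algebraMap κ l (a j) * ((w j : l) ^ m') ^ p) ^ p ^ (i + i') = 0 := by
    rw [sum_pow_char_pow]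
    have h2 : (∑ j, algebraMap κ l (a j ^ p ^ i) * z j ^ d) ^ p ^ i' = 0 := by
      rw [hz, zero_pow (pow_ne_zero _ hpp.ne_zero)]
    rw [sum_pow_char_pow] at h2
    rw [← h2]
    refine Finset.sum_congr rfl fun j _ => ?_
    have h3 : ((w j : l)) = z j ^ p ^ i' := rfl
    rw [h3, mul_pow, mul_pow, map_pow, ← pow_mul, ← pow_mul, ← pow_mul, ← pow_mul, ← pow_mul,
      hd', ← pow_add]
    congr 1
    congr 1
    ring
  have h4 : ∑ j, algebraMap κ l (a j) * ((w j : l) ^ m') ^ p = 0 :=
    pow_eq_zero_iff (pow_ne_zero _ hpp.ne_zero) |>.1 h1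
  have h5 : ∑ j, algebraMap κ (separableClosure κ l) (a j) * ((w j) ^ m') ^ p = 0 := by
    apply Subtype.ext
    have := h4
    simpa using this
  have h6 := CL_basis a ha (fun j => (w j) ^ m') h5
  funext j
  have h7 := congrFun h6 j
  have h8 : w j = 0 := pow_eq_zero_iff hm'0 |>.1 h7
  have h9 : z j ^ p ^ i' = 0 := congrArg (fun u : separableClosure κ l => (u : l)) h8
  exact pow_eq_zero_iff (pow_ne_zero _ hpp.ne_zero) |>.1 h9

theorem anisotropic_of_place {κ E l : Type*} [Field κ] [Field E] [Field l]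
    [Algebra κ l] (n d : ℕ) (hd : 1 ≤ d) (a : Fin (n + 1) → κ)
    (ha : ∀ z : Fin (n + 1) → l, ∑ i, algebraMap κ l (a i) * z i ^ d = 0 → z = 0)
    (ι : κ →+* E) (c : E) (O : ValuationSubring E) (r : O →+* l)
    (hι : ∀ a : κ, ∃ h : ι a ∈ O, r ⟨ι a, h⟩ = algebraMap κ l a)
    (hc : ∃ h : c ∈ O, r ⟨c, h⟩ = 0) (x : Fin (n + 1) → E) (hx : x ≠ 0) :
    ∑ i, ι (a i) * x i ^ d + c * ∑ i : Fin n, x i.castSucc ^ (d - 1) * x i.succ ≠ 0 := by
  intro hsum
  obtain ⟨i0, -, hmax⟩ := Finset.exists_max_image (Finset.univ : Finset (Fin (n + 1)))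
    (fun i => O.valuation (x i)) Finset.univ_nonempty
  have hx0 : x i0 ≠ 0 := by
    intro h0
    apply hx
    funext i
    have h1 := hmax i (Finset.mem_univ i)
    rw [h0, map_zero, le_zero_iff, map_eq_zero] at h1
    exact h1
  have hy : ∀ i, x i / x i0 ∈ O := by
    intro i
    rw [← O.valuation_le_one_iff, map_div₀]
    have hv : O.valuation (x i0) ≠ 0 := (map_ne_zero _).2 hx0
    exact (div_le_one₀ (zero_lt_iff.2 hv)).2 (hmax i (Finset.mem_univ i))
  choose hιO hιr using hι
  obtain ⟨hcO, hcr⟩ := hc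
  have hO : ∑ i, (⟨ι (a i), hιO (a i)⟩ : O) * (⟨x i / x i0, hy i⟩ : O) ^ d +
      (⟨c, hcO⟩ : O) * ∑ i : Fin n, (⟨x i.castSucc / x i0, hy _⟩ : O) ^ (d - 1) *
        (⟨x i.succ / x i0, hy _⟩ : O) = 0 := by
    apply Subtype.ext
    push_cast
    have h1 : ∑ i, ι (a i) * (x i / x i0) ^ d = (∑ i, ι (a i) * x i ^ d) / x i0 ^ d := by
      rw [Finset.sum_div]
      apply Finset.sum_congr rfl
      intro i _
      rw [div_pow, mul_div_assoc]
    have h2 : ∑ i : Fin n, (x i.castSucc / x i0) ^ (d - 1) * (x i.succ / x i0) =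
        (∑ i : Fin n, x i.castSucc ^ (d - 1) * x i.succ) / x i0 ^ d := by
      rw [Finset.sum_div]
      apply Finset.sum_congr rfl
      intro i _
      rw [div_pow, div_mul_div_comm, ← pow_succ, Nat.sub_add_cancel hd]
    rw [h1, h2, mul_div_assoc', ← add_div, hsum, zero_div]
  have hr0 := congrArg r hO
  simp only [map_add, map_sum, map_mul, map_pow, map_zero, hcr, zero_mul, add_zero, hιr] at hr0
  have hz := ha (fun i => r ⟨x i / x i0, hy i⟩) hr0
  have h1 := congrFun hz i0
  have h2 : (⟨x i0 / x i0, hy i0⟩ : O) = 1 := by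
    apply Subtype.ext
    exact div_self hx0
  simp only [h2, map_one, Pi.zero_apply] at h1
  exact one_ne_zero h1

theorem indep_pow (p : ℕ) [Fact p.Prime] (k₀ : Type*) [Field k₀] [CharP k₀ p] (n : ℕ)
    (y : Fin (n + 1) → FractionRing (MvPolynomial ℕ k₀))
    (hy : ∑ i : Fin (n + 1), algebraMap (MvPolynomial ℕ k₀) _ (X (i : ℕ)) * y i ^ p = 0) :
    y = 0 := by
  classical
  have hpp : p.Prime := Fact.out
  obtain ⟨b, hb⟩ := IsLocalization.exist_integer_multiples_of_finite
    (nonZeroDivisors (MvPolynomial ℕ k₀)) y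
  choose w hw using hb
  have hb0 : (b : MvPolynomial ℕ k₀) ≠ 0 := nonZeroDivisors.coe_ne_zero b
  have hinj := IsFractionRing.injective (MvPolynomial ℕ k₀)
    (FractionRing (MvPolynomial ℕ k₀))
  have hw' : ∀ i, algebraMap (MvPolynomial ℕ k₀) (FractionRing (MvPolynomial ℕ k₀)) (w i)
      = algebraMap _ _ (b : MvPolynomial ℕ k₀) * y i := by
    intro i
    rw [hw i, Algebra.smul_def]
  have h1 : ∑ i : Fin (n + 1), X (i : ℕ) * w i ^ p = (0 : MvPolynomial ℕ k₀) := by
    apply hinj
    rw [map_sum, map_zero]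
    have e : ∀ i : Fin (n + 1), algebraMap (MvPolynomial ℕ k₀)
        (FractionRing (MvPolynomial ℕ k₀)) (X (i : ℕ) * w i ^ p) =
        algebraMap _ _ (b : MvPolynomial ℕ k₀) ^ p *
          (algebraMap (MvPolynomial ℕ k₀) _ (X (i : ℕ)) * y i ^ p) := by
      intro i
      rw [map_mul, map_pow, hw' i]; ring
    rw [Finset.sum_congr rfl (fun i _ => e i), ← Finset.mul_sum, hy, mul_zero]
  have h3 : ((p : ℕ) : MvPolynomial ℕ k₀) = 0 := CharP.cast_eq_zero _ p
  have hwz : ∀ j : Fin (n + 1), w j = 0 := by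
    intro j
    have h4 := congrArg (pderiv (j : ℕ)) h1
    rw [map_sum, map_zero] at h4
    have e : ∀ i : Fin (n + 1), pderiv (j : ℕ) (X (i : ℕ) * w i ^ p) =
        if i = j then w j ^ p else (0 : MvPolynomial ℕ k₀) := by
      intro i
      rw [Derivation.leibniz, Derivation.leibniz_pow]
      have e1 : (p : ℕ) • (w i ^ (p - 1) • pderiv (j : ℕ) (w i)) = (0 : MvPolynomial ℕ k₀) := by
        rw [nsmul_eq_mul, h3, zero_mul]
      rw [e1, smul_zero, zero_add, pderiv_X]
      by_cases hij : i = j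
      · rw [hij, if_pos rfl, Pi.single_eq_same, smul_eq_mul, mul_one]
      · rw [if_neg hij, Pi.single_eq_of_ne, smul_zero]
        intro hval
        exact hij (Fin.ext hval)
    rw [Finset.sum_congr rfl (fun i _ => e i), Finset.sum_ite_eq' Finset.univ j] at h4
    simp only [Finset.mem_univ, if_true] at h4
    exact pow_eq_zero_iff hpp.ne_zero |>.mp h4
  funext j
  have h5 := hw' j
  rw [hwz j, map_zero] at h5
  have hb1 : algebraMap (MvPolynomial ℕ k₀) (FractionRing (MvPolynomial ℕ k₀))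
      (b : MvPolynomial ℕ k₀) ≠ 0 := by
    intro h6
    apply hb0
    apply hinj
    rw [h6, map_zero]
  rcases mul_eq_zero.mp h5.symm with h6 | h6
  · exact absurd h6 hb1
  · exact h6

end Pool.Agent.Y233.Cd
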