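import Pool.Agent.Y233.Cd.Defs

set_option autoImplicit false

open MvPolynomial Pool.Agent.Helper346.Cd

namespace Pool.Agent.Y233.Cd

theorem dform_homogeneous {k : Type*} [Field k] (n d : ℕ) (hd : 1 ≤ d) (a : Fin (n + 1) → k)
    (c : k) : (dform n d a c).IsHomogeneous d := by
  unfold dform
  apply IsHomogeneous.add
  · apply IsHomogeneous.sum
    intro i _
    have h1 := (isHomogeneous_C (Fin (n+1)) (a i)).mul ((isHomogeneous_X k i).pow d)
    simpa using h1
  · have h2 : (∑ i : Fin n, (X i.castSucc ^ (d - 1) * X i.succ :
        MvPolynomial (Fin (n+1)) k)).IsHomogeneous d := by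
      apply IsHomogeneous.sum
      intro i _
      have h1 := ((isHomogeneous_X k i.castSucc).pow (d - 1)).mul (isHomogeneous_X k i.succ)
      have h2 : 1 * (d - 1) + 1 = d := by omega
      rw [h2] at h1
      exact h1
    have h3 := (isHomogeneous_C (Fin (n+1)) c).mul h2
    simpa using h3

theorem aeval_dform {k A : Type*} [Field k] [CommRing A] [Algebra k A] (n d : ℕ)
    (a : Fin (n + 1) → k) (c : k) (x : Fin (n + 1) → A) : aeval x (dform n d a c)
      = ∑ i, algebraMap k A (a i) * x i ^ d +
        algebraMap k A c * ∑ i : Fin n, x i.castSucc ^ (d - 1) * x i.succ := by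
  unfold dform
  simp

theorem dform_rel {p : ℕ} [Fact p.Prime] {k : Type*} [Field k] [CharP k p] (n d : ℕ)
    (hpd : p ∣ d) (a : Fin (n + 1) → k) (c : k) (hc : c ≠ 0)
    (x : Fin (n + 1) → AlgebraicClosure k)
    (hcon : ∀ i, aeval x (pderiv i (dform n d a c)) = 0) (i : Fin (n + 1)) :
    ∑ j : Fin n, ((if i = j.castSucc then
        ((d - 1 : ℕ) : AlgebraicClosure k) * x j.castSucc ^ (d - 1 - 1) * x j.succ else 0) +
        (if i = j.succ then x j.castSucc ^ (d - 1) else 0)) = 0 := by
  have hchar : CharP (AlgebraicClosure k) p :=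
    charP_of_injective_algebraMap (algebraMap k (AlgebraicClosure k)).injective p
  have h3 : ((d : ℕ) : AlgebraicClosure k) = 0 :=
    (CharP.cast_eq_zero_iff (AlgebraicClosure k) p d).2 hpd
  have hca : algebraMap k (AlgebraicClosure k) c ≠ 0 := by
    simpa using hc
  have hder : ∀ i, aeval x (pderiv i (dform n d a c)) = algebraMap k (AlgebraicClosure k) c *
      ∑ j : Fin n, ((if i = j.castSucc then
        ((d - 1 : ℕ) : AlgebraicClosure k) * x j.castSucc ^ (d - 1 - 1) * x j.succ else 0) +
        (if i = j.succ then x j.castSucc ^ (d - 1) else 0)) := by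
    intro i
    unfold dform
    have key : ∀ j : Fin n, aeval x (pderiv i (X j.castSucc ^ (d - 1) * X j.succ :
        MvPolynomial (Fin (n+1)) k)) =
        ((if i = j.castSucc then
        ((d - 1 : ℕ) : AlgebraicClosure k) * x j.castSucc ^ (d - 1 - 1) * x j.succ else 0) +
        (if i = j.succ then x j.castSucc ^ (d - 1) else 0)) := by
      intro j
      rw [Derivation.leibniz, Derivation.leibniz_pow, pderiv_X, pderiv_X]
      simp only [smul_eq_mul, nsmul_eq_mul, map_add, map_mul, map_pow, aeval_X, Pi.single_apply,
        map_natCast]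
      by_cases h1 : i = j.castSucc <;> by_cases h2 : i = j.succ
      · exfalso
        have := congrArg Fin.val (h1.symm.trans h2)
        simp at this
      · rw [if_neg (fun h => h2 h.symm), if_pos h1.symm, if_pos h1, if_neg h2]
        simp
        ring
      · rw [if_pos h2.symm, if_neg (fun h => h1 h.symm), if_neg h1, if_pos h2]
        simp
      · rw [if_neg (fun h => h2 h.symm), if_neg (fun h => h1 h.symm), if_neg h1, if_neg h2]
        simp
    have key2 : ∀ j : Fin (n+1), aeval x (pderiv i (C (a j) * X j ^ d :
        MvPolynomial (Fin (n+1)) k)) = 0 := by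
      intro j
      rw [Derivation.leibniz, Derivation.leibniz_pow, pderiv_C]
      simp [h3]
    rw [map_add, map_add, map_sum, map_sum, Finset.sum_congr rfl (fun j _ => key2 j),
      Derivation.leibniz, pderiv_C]
    simp only [Finset.sum_const_zero, zero_add, smul_eq_mul, mul_zero, add_zero, map_mul, aeval_C,
      map_sum]
    rw [Finset.sum_congr rfl (fun j _ => key j)]
  have := hder i
  rw [hcon i] at this
  rcases mul_eq_zero.mp this.symm with h | h
  · exact absurd h hca
  · exact h

theorem dform_smooth {p : ℕ} [Fact p.Prime] {k : Type*} [Field k] [CharP k p] (n d : ℕ)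
    (hd : 3 ≤ d) (hpd : p ∣ d) (a : Fin (n + 1) → k) (c : k)
    (ha : a (Fin.last n) ≠ 0) (hc : c ≠ 0) : IsSmoothHypersurface (dform n d a c) := by
  intro x hx0 hF
  by_contra hcon
  push Not at hcon
  have hrel := dform_rel (p := p) n d hpd a c hc x hcon
  have hd1 : d - 1 ≠ 0 := by omega
  have hd2 : d - 1 - 1 ≠ 0 := by omega
  have hstep : ∀ m : ℕ, ∀ (i : Fin n), (i : ℕ) + m + 1 = n → x i.castSucc = 0 := by
    intro m
    induction m with
    | zero =>
      intro i hi
      have h := hrel i.succ
      rw [Finset.sum_eq_single i] at h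
      · have h1 : i.succ ≠ i.castSucc := by
          intro h; have := congrArg Fin.val h; simp at this
        rw [if_neg h1, if_pos rfl, zero_add] at h
        exact pow_eq_zero_iff hd1 |>.1 h
      · intro j _ hj
        have h1 : i.succ ≠ j.castSucc := by
          intro h; have := congrArg Fin.val h; simp at this; omega
        have h2 : i.succ ≠ j.succ := by
          intro h; exact hj (Fin.succ_injective _ h).symm
        simp [h1, h2]
      · intro h; exact absurd (Finset.mem_univ _) h
    | succ m ih =>
      intro i hi
      have hlt : (i : ℕ) + 1 < n := by omega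
      set i' : Fin n := ⟨(i : ℕ) + 1, hlt⟩ with hi'
      have hx' : x i'.castSucc = 0 := ih i' (by simp [hi']; omega)
      have hcs : i.succ = i'.castSucc := by ext; simp [hi']
      have h := hrel i.succ
      rw [Finset.sum_eq_single i] at h
      · have h1 : i.succ ≠ i.castSucc := by
          intro h; have := congrArg Fin.val h; simp at this
        rw [if_neg h1, if_pos rfl, zero_add] at h
        exact pow_eq_zero_iff hd1 |>.1 h
      · intro j _ hj
        have h2 : i.succ ≠ j.succ := by
          intro h; exact hj (Fin.succ_injective _ h).symm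
        by_cases h1 : i.succ = j.castSucc
        · have : x j.castSucc = 0 := by rw [← h1, hcs]; exact hx'
          rw [if_pos h1, if_neg h2, this, zero_pow hd2]
          simp
        · simp [h1, h2]
      · intro h; exact absurd (Finset.mem_univ _) h
  have hz : ∀ i : Fin n, x i.castSucc = 0 := by
    intro i
    exact hstep (n - 1 - i) i (by omega)
  rw [aeval_dform, Fin.sum_univ_castSucc] at hF
  simp only [hz, zero_pow hd1, zero_mul, mul_zero, Finset.sum_const_zero, add_zero,
    zero_pow (show d ≠ 0 by omega), zero_add] at hF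
  have hxl : x (Fin.last n) = 0 := by
    rcases mul_eq_zero.mp hF with h | h
    · exfalso; apply ha; simpa using h
    · exact pow_eq_zero_iff (show d ≠ 0 by omega) |>.mp h
  apply hx0
  funext i
  refine Fin.lastCases ?_ ?_ i
  · simpa using hxl
  · intro j; simpa using hz j

end Pool.Agent.Y233.Cd
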