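import Pool.Agent.Helper346.Cd.Defs

set_option autoImplicit false

open MvPolynomial Pool.Agent.Helper346.Cd

namespace Pool.Agent.Y233.Cd

/-- Every open normal subgroup of `G` has index a power of `p`. -/
def IsProP (p : ℕ) (G : Type*) [Group G] [TopologicalSpace G] : Prop :=
  ∀ U : Subgroup G, U.Normal → IsOpen (U : Set G) → ∃ m : ℕ, U.index = p ^ m

/-- The form `∑ᵢ aᵢ xᵢ^d + c ∑_(i<n) xᵢ^(d-1) x_(i+1)` in the variables `x₀, …, xₙ`. -/
noncomputable def dform {k : Type*} [Field k] (n d : ℕ) (a : Fin (n + 1) → k) (c : k) :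
    MvPolynomial (Fin (n + 1)) k :=
  ∑ i, C (a i) * X i ^ d + C c * ∑ i : Fin n, X i.castSucc ^ (d - 1) * X i.succ

end Pool.Agent.Y233.Cd
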