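import Pool.Agent.Y233.Cd.Defs
import Pool.Agent.Helper346.Cd.CR

set_option autoImplicit false

open MvPolynomial Pool.Agent.Helper346.Cd

namespace Pool.Agent.Y233.Cd

theorem galois_pow {p : ℕ} [Fact p.Prime] (k L : Type*) [Field k] [Field L] [Algebra k L]
    [FiniteDimensional k L] [IsGalois k L]
    (hk : ∀ M : IntermediateField k L, ¬ p ∣ Module.finrank k M → Module.finrank k M = 1) :
    ∃ m, Module.finrank k L = p ^ m := by
  let P : Sylow p Gal(L/k) := default
  have h1 : Module.finrank (IntermediateField.fixedField (P : Subgroup Gal(L/k))) L =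
      Nat.card (P : Subgroup Gal(L/k)) := IntermediateField.finrank_fixedField_eq_card _
  have h2 := Module.finrank_mul_finrank k (IntermediateField.fixedField (P : Subgroup Gal(L/k))) L
  have h3 : Nat.card Gal(L/k) = Module.finrank k L := IsGalois.card_aut_eq_finrank k L
  have h4 := (P : Subgroup Gal(L/k)).card_mul_index
  have hPpos : 0 < Nat.card (P : Subgroup Gal(L/k)) := Nat.card_pos
  have h5 : Module.finrank k (IntermediateField.fixedField (P : Subgroup Gal(L/k))) =
      (P : Subgroup Gal(L/k)).index := by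
    rw [h1, ← h3, ← h4, mul_comm] at h2
    exact Nat.eq_of_mul_eq_mul_left hPpos h2
  have h6 : ¬ p ∣ (P : Subgroup Gal(L/k)).index := P.not_dvd_index
  have h8 := hk (IntermediateField.fixedField (P : Subgroup Gal(L/k))) (by rw [h5]; exact h6)
  rw [h5] at h8
  rw [h8, mul_one, h3] at h4
  obtain ⟨m, hm⟩ := IsPGroup.iff_card.1 P.isPGroup'
  exact ⟨m, by rw [← h4, hm]⟩

theorem irr_pow {p : ℕ} [Fact p.Prime] {k : Type} [Field k] [CharP k p]
    (hk : ∀ (M : Type) [Field M] [Algebra k M] [FiniteDimensional k M],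
      ¬ p ∣ Module.finrank k M → Module.finrank k M = 1)
    (f : Polynomial k) (hf : Irreducible f) : ∃ t, f.natDegree = p ^ t := by
  have hpp : p.Prime := Fact.out
  obtain ⟨n, g, hg, rfl⟩ := Polynomial.exists_separable_of_irreducible p hf hpp.ne_zero
  have hgi : Irreducible g := Polynomial.of_irreducible_expand_pow hpp.ne_zero hf
  have hgal : IsGalois k g.SplittingField := IsGalois.of_separable_splitting_field hg
  obtain ⟨m, hm⟩ := galois_pow (p := p) k g.SplittingField (fun M h => hk M h)
  have hdeg : g.degree ≠ 0 := (Polynomial.degree_pos_of_irreducible hgi).ne'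
  obtain ⟨θ, hθ⟩ : ∃ θ : g.SplittingField, Polynomial.aeval θ g = 0 := by
    obtain ⟨θ, hθ⟩ := (Polynomial.SplittingField.splits g).exists_eval_eq_zero
      (by rw [Polynomial.degree_map]; exact hdeg)
    exact ⟨θ, by rwa [Polynomial.eval_map_algebraMap] at hθ⟩
  have h1 : (minpoly k θ).natDegree = g.natDegree := by
    rw [← minpoly.eq_of_irreducible hgi hθ, Polynomial.natDegree_mul_C]
    exact inv_ne_zero (Polynomial.leadingCoeff_ne_zero.2 hgi.ne_zero)
  have h2 : g.natDegree ∣ p ^ m := by
    rw [← h1, ← hm]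
    exact minpoly.degree_dvd (Algebra.IsIntegral.isIntegral θ)
  obtain ⟨t, -, ht⟩ := (Nat.dvd_prime_pow hpp).1 h2
  exact ⟨t + n, by rw [Polynomial.natDegree_expand, ht, pow_add]⟩

theorem hom_sum {k : Type*} [Field k] {n d : ℕ} {F : MvPolynomial (Fin (n + 1)) k}
    (hF : F.IsHomogeneous d) (m : Fin (n + 1) →₀ ℕ) (hm : m ∈ F.support) : ∑ i, m i = d := by
  have h := hF (mem_support_iff.1 hm)
  simpa [Finsupp.weight_apply, Finsupp.sum_fintype] using h

theorem hom_scale {k A : Type*} [Field k] [CommRing A] [Algebra k A] {n d : ℕ}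
    (F : MvPolynomial (Fin (n + 1)) k) (hF : F.IsHomogeneous d) (x : Fin (n + 1) → A) (c : A) :
    aeval (fun i => c * x i) F = c ^ d * aeval x F := by
  rw [cr_aeval, cr_aeval, Finset.mul_sum]
  refine Finset.sum_congr rfl fun m hm => ?_
  have h1 : ∏ i, (c * x i) ^ m i = c ^ d * ∏ i, x i ^ m i := by
    simp only [mul_pow]
    rw [Finset.prod_mul_distrib, Finset.prod_pow_eq_pow_sum, hom_sum hF m hm]
  rw [h1]; ring

theorem crP_deg' {k : Type*} [Field k] {n d : ℕ} (F : MvPolynomial (Fin (n + 1)) k)
    (hF : F.IsHomogeneous d) : (crP F).natDegree ≤ d := by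
  rw [crP_eq]
  refine Polynomial.natDegree_sum_le_of_forall_le _ _ fun m hm => ?_
  refine (Polynomial.natDegree_C_mul_X_pow_le _ _).trans ?_
  have := hom_sum hF m hm
  rw [← this]
  exact Finset.single_le_sum (f := fun i => m i) (fun i _ => Nat.zero_le _) (Finset.mem_univ 0)

theorem crP_coeff' {k : Type*} [Field k] {n d : ℕ} (F : MvPolynomial (Fin (n + 1)) k)
    (hF : F.IsHomogeneous d) :
    (crP F).coeff d = eval (Fin.cons 1 (fun _ => 0) : Fin (n + 1) → k) F := by
  rw [crP_eq, eval_eq', Polynomial.finsetSum_coeff]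
  refine Finset.sum_congr rfl fun m hm => ?_
  have hs := hom_sum hF m hm
  rw [Fin.sum_univ_succ] at hs
  rw [Polynomial.coeff_C_mul, Polynomial.coeff_X_pow, Fin.prod_univ_succ]
  simp only [Fin.cons_zero, Fin.cons_succ, one_pow, one_mul]
  by_cases h3 : m 0 = d
  · have h0 : ∀ i : Fin n, m i.succ = 0 := by
      intro i
      have : ∑ i : Fin n, m i.succ = 0 := by omega
      exact (Finset.sum_eq_zero_iff.1 this) i (Finset.mem_univ i)
    simp [h3, h0]
  · have hex : ∃ i : Fin n, m i.succ ≠ 0 := by
      by_contra hcon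
      push Not at hcon
      apply h3
      simp only [hcon, Finset.sum_const_zero, add_zero] at hs
      exact hs
    obtain ⟨i, hi⟩ := hex
    have e1 : ∏ i : Fin n, (0 : k) ^ m i.succ = 0 :=
      Finset.prod_eq_zero (Finset.mem_univ i) (zero_pow hi)
    rw [e1, if_neg (fun h => h3 h.symm), mul_zero, mul_zero]

theorem dvd_natDegree_of_factors {k : Type*} [Field k] (m' : ℕ) (P : Polynomial k) (hP : P ≠ 0)
    (h : ∀ f : Polynomial k, Irreducible f → f ∣ P → m' ∣ f.natDegree) : m' ∣ P.natDegree := by
  induction P using WfDvdMonoid.induction_on_irreducible with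
  | zero => exact absurd rfl hP
  | unit u hu =>
    rw [Polynomial.natDegree_eq_zero_of_isUnit hu]
    exact dvd_zero _
  | mul a i ha hi ih =>
    rw [Polynomial.natDegree_mul hi.ne_zero ha]
    exact dvd_add (h i hi (dvd_mul_right _ _))
      (ih ha (fun f hf hfa => h f hf (hfa.trans (dvd_mul_left _ _))))

/-- a root of the restriction to a line gives a closed point whose degree is that of the root -/
theorem line_point {k : Type*} [Field k] (n : ℕ) (hn : 1 ≤ n)
    (F : MvPolynomial (Fin (n + 1)) k) (s : AlgebraicClosure k)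
    (hs : Polynomial.aeval s (crP F) = 0) : (minpoly k s).natDegree ∈ closedPointDegrees F := by
  set x : Fin (n + 1) → AlgebraicClosure k := Fin.cons s
    (fun i : Fin n => if (i : ℕ) = 0 then 1 else 0) with hx
  have hx1 : x (Fin.succ ⟨0, hn⟩) = 1 := by
    rw [hx, Fin.cons_succ]; simp
  have hxne : x ≠ 0 := by
    intro h
    rw [h] at hx1
    simp at hx1
  have hx0 : aeval x F = 0 := by
    have e : (Polynomial.aeval s : Polynomial k →ₐ[k] AlgebraicClosure k) (crP F) = aeval x F := by
      unfold crP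
      rw [← AlgHom.comp_apply]
      congr 1
      apply MvPolynomial.algHom_ext
      intro i
      rw [AlgHom.comp_apply, aeval_X, aeval_X, hx]
      refine Fin.cases ?_ (fun i => ?_) i
      · simp
      · rw [Fin.cons_succ, Fin.cons_succ]
        split_ifs <;> simp
    rw [← e]; exact hs
  refine ⟨x, hxne, hx0, ?_⟩
  have hint : IsIntegral k s := (Algebra.IsAlgebraic.isAlgebraic s).isIntegral
  have heq : pointField k x = IntermediateField.adjoin k {s} := by
    apply le_antisymm
    · unfold pointField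
      rw [IntermediateField.adjoin_le_iff]
      have hxm : ∀ i, x i ∈ IntermediateField.adjoin k {s} := by
        intro i
        rw [hx]
        refine Fin.cases ?_ (fun i => ?_) i
        · rw [Fin.cons_zero]
          exact IntermediateField.mem_adjoin_simple_self k s
        · rw [Fin.cons_succ]
          split_ifs
          · exact one_mem _
          · exact zero_mem _
      rintro z ⟨i, j, _, rfl⟩
      exact div_mem (hxm i) (hxm j)
    · rw [IntermediateField.adjoin_simple_le_iff]
      refine IntermediateField.subset_adjoin k _ ⟨0, Fin.succ ⟨0, hn⟩, ?_, ?_⟩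
      · rw [hx1]; exact one_ne_zero
      · rw [hx1, div_one, hx, Fin.cons_zero]
  rw [heq, IntermediateField.adjoin.finrank hint]

theorem rational_degree {k : Type*} [Field k] {n : ℕ}
    (F : MvPolynomial (Fin (n + 1)) k) (hrat : HasRationalPoint F) :
    1 ∈ closedPointDegrees F := by
  obtain ⟨y, hy, hy0⟩ := hrat
  have hinj := (algebraMap k (AlgebraicClosure k)).injective
  refine ⟨fun i => algebraMap k (AlgebraicClosure k) (y i), ?_, ?_, ?_⟩
  · intro h
    apply hy
    funext i
    have := congrFun h i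
    simpa using this
  · have e1 : algebraMap k (AlgebraicClosure k) (eval y F) =
        aeval (fun i => algebraMap k (AlgebraicClosure k) (y i)) F := by
      rw [cr_aeval, eval_eq', map_sum]
      refine Finset.sum_congr rfl fun m _ => ?_
      rw [map_mul, map_prod]
      simp only [map_pow]
    rw [← e1, hy0, map_zero]
  · symm
    rw [IntermediateField.finrank_eq_one_iff, eq_bot_iff]
    unfold pointField
    rw [IntermediateField.adjoin_le_iff]
    rintro z ⟨i, j, _, rfl⟩
    rw [← map_div₀]
    exact IntermediateField.algebraMap_mem _ _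

theorem index_of {p : ℕ} [Fact p.Prime] {k : Type*} [Field k] (n : ℕ) (hn : 1 ≤ n)
    (hk : ∀ f : Polynomial k, Irreducible f → ∃ t, f.natDegree = p ^ t)
    (F : MvPolynomial (Fin (n + 1)) k) (d : ℕ) (hF : F.IsHomogeneous d) (s m : ℕ)
    (hd : d = p ^ s * m) (hpm : ¬ p ∣ m) (hs : 1 ≤ s)
    (hall : ∀ e ∈ closedPointDegrees F, p ^ s ∣ e) : IsIndex F (p ^ s) := by
  have hpp : p.Prime := Fact.out
  refine ⟨hall, ?_⟩
  intro m' hm'
  have hrat : ¬ HasRationalPoint F := by
    intro h
    have h1 := hall 1 (rational_degree F h)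
    have h2 : p ∣ 1 := (dvd_pow_self p (by omega)).trans h1
    exact hpp.one_lt.ne' (Nat.dvd_one.1 h2)
  have hc : (crP F).coeff d ≠ 0 := by
    rw [crP_coeff' F hF]
    intro h0
    apply hrat
    refine ⟨_, ?_, h0⟩
    intro h
    have := congrFun h 0
    simp at this
  have hP0 : crP F ≠ 0 := by
    intro h; rw [h] at hc; simp at hc
  have hdeg : (crP F).natDegree = d :=
    le_antisymm (crP_deg' F hF) (Polynomial.le_natDegree_of_ne_zero hc)
  have hfac : ∀ f : Polynomial k, Irreducible f → f ∣ crP F → m' ∣ f.natDegree := by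
    intro f hf hfd
    obtain ⟨s, hs⟩ := IsAlgClosed.exists_aeval_eq_zero (AlgebraicClosure k) f
      (Polynomial.degree_pos_of_irreducible hf).ne'
    have h1 : (minpoly k s).natDegree = f.natDegree := by
      rw [← minpoly.eq_of_irreducible hf hs, Polynomial.natDegree_mul_C]
      exact inv_ne_zero (Polynomial.leadingCoeff_ne_zero.2 hf.ne_zero)
    rw [← h1]
    apply hm'
    apply line_point n hn F s
    obtain ⟨g, hg⟩ := hfd
    rw [hg, map_mul, hs, zero_mul]
  have h1 : m' ∣ d := by
    rw [← hdeg]
    exact dvd_natDegree_of_factors m' _ hP0 hfac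
  have hm0 : m ≠ 0 := by
    intro h0
    apply hpm
    rw [h0]
    exact dvd_zero _
  have hnu : ¬ IsUnit (crP F) := by
    intro hu
    have h2 := Polynomial.natDegree_eq_zero_of_isUnit hu
    rw [hdeg, hd] at h2
    rcases Nat.mul_eq_zero.1 h2 with h3 | h3
    · exact pow_ne_zero _ hpp.ne_zero h3
    · exact hm0 h3
  obtain ⟨f, hf, hfd⟩ := WfDvdMonoid.exists_irreducible_factor hnu hP0
  obtain ⟨t, ht⟩ := hk f hf
  have h2 : m' ∣ p ^ t := by
    rw [← ht]
    exact hfac f hf hfd
  obtain ⟨u, -, hu⟩ := (Nat.dvd_prime_pow hpp).1 h2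
  have hcop : Nat.Coprime m' m := by
    rw [hu]
    exact Nat.Coprime.pow_left _ ((Nat.Prime.coprime_iff_not_dvd hpp).2 hpm)
  rw [hd] at h1
  exact hcop.dvd_of_dvd_mul_right h1

end Pool.Agent.Y233.Cd
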