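import Pool.Agent.Y233.Cd.Defs

set_option autoImplicit false

open Pool.Agent.Helper346.Cd

namespace Pool.Agent.Y233.Cd

open IntermediateField

/-- Descent of a finite separable extension `M/E` to a finite extension of `K`, when all finite
subextensions of `E/K` have degree prime to `p`. -/
theorem descent {p : ℕ} [Fact p.Prime] {K E M : Type*} [Field K] [Field E] [Field M]
    [Algebra K E] [Algebra E M] [Algebra K M] [IsScalarTower K E M] [Algebra.IsIntegral K E]
    [FiniteDimensional E M] [Algebra.IsSeparable E M]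
    (hE : ∀ T : IntermediateField K E, FiniteDimensional K T → ¬ p ∣ Module.finrank K T)
    (t : ℕ) (h : ¬ p ^ t ∣ Module.finrank E M) {m : ℕ} (y : Fin m → M) :
    ∃ T : IntermediateField K M, FiniteDimensional K T ∧ ¬ p ^ t ∣ Module.finrank K T ∧
      ∀ i, y i ∈ T := by
  classical
  have hpp : p.Prime := Fact.out
  obtain ⟨α, hα⟩ := Field.exists_primitive_element E M
  have hαi : IsIntegral E α := Algebra.IsIntegral.isIntegral α
  have hdegM : Module.finrank E M = (minpoly E α).natDegree := by
    have h1 := IntermediateField.adjoin.finrank hαi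
    rw [hα, IntermediateField.finrank_top'] at h1
    exact h1
  have hy : ∀ i, ∃ g : Polynomial E, Polynomial.aeval α g = y i := by
    intro i
    have hβ' : y i ∈ (E⟮α⟯).toSubalgebra := by
      rw [hα]
      exact trivial
    rw [adjoin_simple_toSubalgebra_of_isAlgebraic hαi.isAlgebraic,
      Algebra.adjoin_singleton_eq_range_aeval] at hβ'
    obtain ⟨g, hg⟩ := hβ'
    exact ⟨g, hg⟩
  choose g hg using hy
  set q := minpoly E α with hq
  let C : Set E := ((q.coeffs ∪ Finset.univ.biUnion (fun i => (g i).coeffs) : Finset E) : Set E)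
  have hCfin : C.Finite := Finset.finite_toSet _
  let E0 : IntermediateField K E := IntermediateField.adjoin K C
  have hfd0 : FiniteDimensional K E0 := by
    have := hCfin.to_subtype
    exact IntermediateField.finiteDimensional_adjoin
      (fun x _ => Algebra.IsIntegral.isIntegral x)
  have hp0 := hE E0 hfd0
  have hcoef : ∀ (h : Polynomial E), h.coeffs ⊆ q.coeffs ∪ Finset.univ.biUnion
      (fun i => (g i).coeffs) → ∃ h0 : Polynomial E0, h0.map (algebraMap E0 E) = h := by
    intro h hh
    have h1 : h ∈ Polynomial.lifts (algebraMap E0 E) := by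
      rw [Polynomial.lifts_iff_coeff_lifts]
      intro n
      by_cases hn : h.coeff n = 0
      · rw [hn]
        exact ⟨0, map_zero _⟩
      · have h2 : h.coeff n ∈ E0 := by
          apply IntermediateField.subset_adjoin
          exact hh (Polynomial.coeff_mem_coeffs hn)
        exact ⟨⟨_, h2⟩, rfl⟩
    obtain ⟨h0, hh0⟩ := (Polynomial.mem_lifts _).1 h1
    exact ⟨h0, hh0⟩
  obtain ⟨m0, hm0⟩ := hcoef q Finset.subset_union_left
  have hg0 : ∀ i, ∃ h0 : Polynomial E0, h0.map (algebraMap E0 E) = g i := fun i =>
    hcoef (g i) ((Finset.subset_biUnion_of_mem (fun i => (g i).coeffs)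
      (Finset.mem_univ i)).trans Finset.subset_union_right)
  choose g0 hg0 using hg0
  have hmm : q.Monic := minpoly.monic hαi
  have hdeg : m0.natDegree = q.natDegree := by
    rw [← hm0, Polynomial.natDegree_map]
  have hm0m : m0.Monic := by
    have h1 : (m0.map (algebraMap E0 E)).Monic := by
      rw [hm0]; exact hmm
    exact Polynomial.monic_of_injective (algebraMap E0 E).injective h1
  have hirr0 : Irreducible m0 := by
    apply Polynomial.Monic.irreducible_of_irreducible_map (algebraMap E0 E) m0 hm0m
    rw [hm0]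
    exact minpoly.irreducible hαi
  have haev : ∀ f : Polynomial E0, Polynomial.aeval α f =
      Polynomial.aeval α (f.map (algebraMap E0 E)) := by
    intro f
    rw [Polynomial.aeval_map_algebraMap]
  have hroot : Polynomial.aeval α m0 = 0 := by
    rw [haev, hm0]
    exact minpoly.aeval E α
  have hmin0 : minpoly E0 α = m0 := (minpoly.eq_of_irreducible_of_monic hirr0 hroot hm0m).symm
  have hαi0 : IsIntegral E0 α := ⟨m0, hm0m, hroot⟩
  have hfin : Module.finrank E0 E0⟮α⟯ = q.natDegree := by
    rw [IntermediateField.adjoin.finrank hαi0, hmin0, hdeg]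
  have hfd1 : FiniteDimensional E0 E0⟮α⟯ := IntermediateField.adjoin.finiteDimensional hαi0
  have hfd2 : FiniteDimensional K E0⟮α⟯ := FiniteDimensional.trans K E0 E0⟮α⟯
  have hmul : Module.finrank K E0 * Module.finrank E0 E0⟮α⟯ = Module.finrank K E0⟮α⟯ :=
    Module.finrank_mul_finrank K E0 E0⟮α⟯
  refine ⟨(E0⟮α⟯).restrictScalars K, hfd2, ?_, ?_⟩
  · intro hcon
    have h5 : p ^ t ∣ Module.finrank K E0⟮α⟯ := hcon
    rw [← hmul, hfin] at h5
    apply h
    rw [hdegM]
    exact (Nat.Coprime.pow_left t ((Nat.Prime.coprime_iff_not_dvd hpp).2 hp0)).dvd_of_dvd_mul_left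
      h5
  · intro i
    show y i ∈ E0⟮α⟯
    rw [← hg i, ← hg0 i, ← haev]
    exact (IntermediateField.algebra_adjoin_le_adjoin E0 {α})
      (Polynomial.aeval_mem_adjoin_singleton E0 α)

end Pool.Agent.Y233.Cd
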