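import Pool.Agent.Y233.Cd.D
import Pool.Agent.Y233.Cd.E

set_option autoImplicit false

open MvPolynomial Pool.Agent.Helper346.Cd

namespace Pool.Agent.Y233.Cd

theorem quadric_smooth {k : Type*} [Field k] [CharP k 2] (n : ℕ) (a : Fin (n + 1) → k) (c : k)
    (hc : c ≠ 0) (hrat : ¬ HasRationalPoint (dform n 2 a c)) :
    IsSmoothHypersurface (dform n 2 a c) := by
  intro x hx0 hF
  by_contra hcon
  push Not at hcon
  have : Fact (Nat.Prime 2) := ⟨Nat.prime_two⟩
  have hchar : CharP (AlgebraicClosure k) 2 :=
    charP_of_injective_algebraMap (algebraMap k (AlgebraicClosure k)).injective 2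
  have hrel := dform_rel (p := 2) n 2 (dvd_refl 2) a c hc x hcon
  have hstep : ∀ m : ℕ, ∀ h : m + 2 < n + 1, x ⟨m + 2, h⟩ = x ⟨m, by omega⟩ := by
    intro m h
    have h1 := hrel ⟨m + 1, by omega⟩
    rw [Finset.sum_add_distrib, Finset.sum_eq_single (⟨m + 1, by omega⟩ : Fin n),
      Finset.sum_eq_single (⟨m, by omega⟩ : Fin n)] at h1
    · have e1 : (⟨m + 1, by omega⟩ : Fin (n + 1)) = (⟨m + 1, by omega⟩ : Fin n).castSucc := rfl
      have e2 : (⟨m + 1, by omega⟩ : Fin (n + 1)) = (⟨m, by omega⟩ : Fin n).succ := rfl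
      rw [if_pos e1, if_pos e2] at h1
      have e3 : (⟨m + 1, by omega⟩ : Fin n).succ = (⟨m + 2, h⟩ : Fin (n + 1)) := rfl
      have e4 : (⟨m, by omega⟩ : Fin n).castSucc = (⟨m, by omega⟩ : Fin (n + 1)) := rfl
      rw [e3, e4] at h1
      simp only [Nat.add_one_sub_one, Nat.cast_one, tsub_self, pow_zero, mul_one, one_mul,
        pow_one] at h1
      have h2 := eq_neg_of_add_eq_zero_left h1
      rw [h2, CharTwo.neg_eq]
    · intro j _ hj
      rw [if_neg]
      intro h2
      apply hj
      ext
      have := congrArg Fin.val h2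
      simp at this
      simp
      omega
    · intro h2; exact absurd (Finset.mem_univ _) h2
    · intro j _ hj
      rw [if_neg]
      intro h2
      apply hj
      ext
      have := congrArg Fin.val h2
      simp at this
      simp
      omega
    · intro h2; exact absurd (Finset.mem_univ _) h2
  have hone : ∀ h : 1 < n + 1, x ⟨1, h⟩ = 0 := by
    intro h
    have h1 := hrel ⟨0, by omega⟩
    rw [Finset.sum_eq_single (⟨0, by omega⟩ : Fin n)] at h1
    · have e1 : (⟨0, by omega⟩ : Fin (n + 1)) = (⟨0, by omega⟩ : Fin n).castSucc := rfl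
      have e2 : (⟨0, by omega⟩ : Fin (n + 1)) ≠ (⟨0, by omega⟩ : Fin n).succ := by
        intro h2
        have := congrArg Fin.val h2
        simp at this
      rw [if_pos e1, if_neg e2] at h1
      have e3 : (⟨0, by omega⟩ : Fin n).succ = (⟨1, h⟩ : Fin (n + 1)) := rfl
      rw [e3] at h1
      simpa using h1
    · intro j _ hj
      rw [if_neg, if_neg, add_zero]
      · intro h2
        have := congrArg Fin.val h2
        simp at this
      · intro h2
        apply hj
        ext
        have := congrArg Fin.val h2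
        simp at this
        simp
        omega
    · intro h2; exact absurd (Finset.mem_univ _) h2
  have hall : ∀ m : ℕ, (∀ h : 2 * m < n + 1, x ⟨2 * m, h⟩ = x 0) ∧
      (∀ h : 2 * m + 1 < n + 1, x ⟨2 * m + 1, h⟩ = 0) := by
    intro m
    induction m with
    | zero => exact ⟨fun h => rfl, fun h => hone h⟩
    | succ m ih =>
      constructor
      · intro h
        have h1 := hstep (2 * m) (by omega)
        have h2 := ih.1 (by omega)
        rw [h2] at h1
        exact h1
      · intro h
        have h1 := hstep (2 * m + 1) (by omega)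
        have h2 := ih.2 (by omega)
        rw [h2] at h1
        exact h1
  let v : Fin (n + 1) → k := fun i => if Even (i : ℕ) then 1 else 0
  have hxv : x = fun i => x 0 * algebraMap k (AlgebraicClosure k) (v i) := by
    funext i
    rcases Nat.even_or_odd' (i : ℕ) with ⟨m, hm | hm⟩
    · have h1 : i = ⟨2 * m, by have := i.2; omega⟩ := by ext; exact hm
      have h2 : v i = 1 := by
        show (if Even (i : ℕ) then (1 : k) else 0) = 1
        rw [if_pos]
        rw [hm]
        exact even_two_mul m
      rw [h2, map_one, mul_one, h1]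
      exact (hall m).1 _
    · have h1 : i = ⟨2 * m + 1, by have := i.2; omega⟩ := by ext; exact hm
      have h2 : v i = 0 := by
        show (if Even (i : ℕ) then (1 : k) else 0) = 0
        rw [if_neg]
        rw [hm, Nat.not_even_iff_odd]
        exact ⟨m, rfl⟩
      rw [h2, map_zero, mul_zero, h1]
      exact (hall m).2 _
  have hv0 : v ≠ 0 := by
    intro h
    have h1 := congrFun h 0
    have h2 : v 0 = 1 := by
      show (if Even ((0 : Fin (n + 1)) : ℕ) then (1 : k) else 0) = 1
      rw [if_pos]
      simp
    rw [h2] at h1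
    exact one_ne_zero h1
  have hFv : eval v (dform n 2 a c) ≠ 0 := fun h => hrat ⟨v, hv0, h⟩
  have hFx : x 0 ^ 2 * algebraMap k (AlgebraicClosure k) (eval v (dform n 2 a c)) = 0 := by
    rw [hxv, hom_scale _ (dform_homogeneous n 2 (by norm_num) a c)] at hF
    have e1 : algebraMap k (AlgebraicClosure k) (eval v (dform n 2 a c)) =
        aeval (fun i => algebraMap k (AlgebraicClosure k) (v i)) (dform n 2 a c) := by
      rw [cr_aeval, eval_eq', map_sum]
      refine Finset.sum_congr rfl fun m _ => ?_
      rw [map_mul, map_prod]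
      simp only [map_pow]
    rw [e1]
    exact hF
  have hx00 : x 0 = 0 := by
    rcases mul_eq_zero.1 hFx with h | h
    · exact pow_eq_zero_iff (by norm_num) |>.1 h
    · exfalso
      apply hFv
      simpa using h
  apply hx0
  rw [hxv, hx00]
  funext i
  simp

/-- Over a field all of whose irreducible polynomials have degree a power of `p`, every form of
degree prime to `p` in at least two variables has a nontrivial zero. -/
theorem rational_of_prime_to {p : ℕ} [Fact p.Prime] {k : Type*} [Field k] (n : ℕ) (hn : 1 ≤ n)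
    (hk : ∀ f : Polynomial k, Irreducible f → ∃ t, f.natDegree = p ^ t)
    (F : MvPolynomial (Fin (n + 1)) k) (d : ℕ) (hF : F.IsHomogeneous d) (hpd : ¬ p ∣ d) :
    HasRationalPoint F := by
  by_contra hrat
  have hpp : p.Prime := Fact.out
  have hc : (crP F).coeff d ≠ 0 := by
    rw [crP_coeff' F hF]
    intro h0
    apply hrat
    refine ⟨_, ?_, h0⟩
    intro h
    have := congrFun h 0
    simp at this
  have hP0 : crP F ≠ 0 := by
    intro h; rw [h] at hc; simp at hc
  have hdeg : (crP F).natDegree = d :=
    le_antisymm (crP_deg' F hF) (Polynomial.le_natDegree_of_ne_zero hc)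
  apply hpd
  rw [← hdeg]
  refine dvd_natDegree_of_factors p _ hP0 ?_
  intro f hf hfd
  obtain ⟨t, ht⟩ := hk f hf
  rcases Nat.eq_zero_or_pos t with h0 | h0
  · exfalso
    rw [h0, pow_zero] at ht
    obtain ⟨r, hr⟩ := Polynomial.exists_root_of_degree_eq_one
      (Polynomial.degree_eq_iff_natDegree_eq_of_pos Nat.one_pos |>.2 ht)
    have h1 : (crP F).eval r = 0 := by
      obtain ⟨g, hg⟩ := hfd
      rw [hg, Polynomial.eval_mul, hr.eq_zero, zero_mul]
    apply hrat
    refine ⟨Fin.cons r (fun i : Fin n => if (i : ℕ) = 0 then 1 else 0), ?_, ?_⟩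
    · intro h
      have h2 := congrFun h (Fin.succ ⟨0, hn⟩)
      rw [Fin.cons_succ] at h2
      simp at h2
    · refine Eq.trans ?_ h1
      unfold crP
      have e : (Polynomial.aeval r : Polynomial k →ₐ[k] k) (aeval (Fin.cons Polynomial.X
          (fun i : Fin n => Polynomial.C (if (i : ℕ) = 0 then (1 : k) else 0)) :
          Fin (n + 1) → Polynomial k) F) = aeval (Fin.cons r
          (fun i : Fin n => if (i : ℕ) = 0 then 1 else 0) : Fin (n + 1) → k) F := by
        rw [← AlgHom.comp_apply]
        congr 1
        apply MvPolynomial.algHom_ext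
        intro i
        rw [AlgHom.comp_apply, aeval_X, aeval_X]
        refine Fin.cases ?_ (fun i => ?_) i
        · simp
        · rw [Fin.cons_succ, Fin.cons_succ]
          split_ifs <;> simp
      rw [Polynomial.coe_aeval_eq_eval] at e
      rw [e]
      exact (congrFun (congrArg DFunLike.coe (MvPolynomial.coe_aeval_eq_eval _)) F).symm
  · rw [ht]
    exact dvd_pow_self p h0.ne'

/-- Over a field all of whose irreducible polynomials have degree a power of `p`, the index of a
hypersurface of degree `d = p^s m`, `p ∤ m`, divides `p^s`. -/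
theorem index_dvd {p : ℕ} [Fact p.Prime] {k : Type*} [Field k] (n : ℕ) (hn : 1 ≤ n)
    (hk : ∀ f : Polynomial k, Irreducible f → ∃ t, f.natDegree = p ^ t)
    (F : MvPolynomial (Fin (n + 1)) k) (d : ℕ) (hF : F.IsHomogeneous d) (s m : ℕ)
    (hd : d = p ^ s * m) (hpm : ¬ p ∣ m) (m' : ℕ)
    (hm' : ∀ e ∈ closedPointDegrees F, m' ∣ e) : m' ∣ p ^ s := by
  have hpp : p.Prime := Fact.out
  by_cases hrat : HasRationalPoint F
  · exact (hm' 1 (rational_degree F hrat)).trans (one_dvd _)
  have hc : (crP F).coeff d ≠ 0 := by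
    rw [crP_coeff' F hF]
    intro h0
    apply hrat
    refine ⟨_, ?_, h0⟩
    intro h
    have := congrFun h 0
    simp at this
  have hP0 : crP F ≠ 0 := by
    intro h; rw [h] at hc; simp at hc
  have hdeg : (crP F).natDegree = d :=
    le_antisymm (crP_deg' F hF) (Polynomial.le_natDegree_of_ne_zero hc)
  have hfac : ∀ f : Polynomial k, Irreducible f → f ∣ crP F → m' ∣ f.natDegree := by
    intro f hf hfd
    obtain ⟨s, hs⟩ := IsAlgClosed.exists_aeval_eq_zero (AlgebraicClosure k) f
      (Polynomial.degree_pos_of_irreducible hf).ne'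
    have h1 : (minpoly k s).natDegree = f.natDegree := by
      rw [← minpoly.eq_of_irreducible hf hs, Polynomial.natDegree_mul_C]
      exact inv_ne_zero (Polynomial.leadingCoeff_ne_zero.2 hf.ne_zero)
    rw [← h1]
    apply hm'
    apply line_point n hn F s
    obtain ⟨g, hg⟩ := hfd
    rw [hg, map_mul, hs, zero_mul]
  have h1 : m' ∣ d := by
    rw [← hdeg]
    exact dvd_natDegree_of_factors m' _ hP0 hfac
  have hm0 : m ≠ 0 := by
    intro h0
    apply hpm
    rw [h0]
    exact dvd_zero _
  have hnu : ¬ IsUnit (crP F) := by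
    intro hu
    have h2 := Polynomial.natDegree_eq_zero_of_isUnit hu
    rw [hdeg, hd] at h2
    rcases Nat.mul_eq_zero.1 h2 with h3 | h3
    · exact pow_ne_zero _ hpp.ne_zero h3
    · exact hm0 h3
  obtain ⟨f, hf, hfd⟩ := WfDvdMonoid.exists_irreducible_factor hnu hP0
  obtain ⟨t, ht⟩ := hk f hf
  have h2 : m' ∣ p ^ t := by
    rw [← ht]
    exact hfac f hf hfd
  obtain ⟨u, -, hu⟩ := (Nat.dvd_prime_pow hpp).1 h2
  have hcop : Nat.Coprime m' m := by
    rw [hu]
    exact Nat.Coprime.pow_left _ ((Nat.Prime.coprime_iff_not_dvd hpp).2 hpm)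
  rw [hd] at h1
  exact hcop.dvd_of_dvd_mul_right h1

/-- The Fermat hypersurface of degree prime to the characteristic is smooth. -/
theorem fermat_smooth {p : ℕ} [Fact p.Prime] {k : Type*} [Field k] [CharP k p] (n d : ℕ)
    (hpd : ¬ p ∣ d) :
    (∑ i : Fin (n + 1), (X i : MvPolynomial (Fin (n + 1)) k) ^ d).IsHomogeneous d ∧
    IsSmoothHypersurface (∑ i : Fin (n + 1), (X i : MvPolynomial (Fin (n + 1)) k) ^ d) := by
  constructor
  · apply IsHomogeneous.sum
    intro i _
    simpa using (isHomogeneous_X k i).pow d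
  · intro x hx _
    by_contra hcon
    push Not at hcon
    have hchar : CharP (AlgebraicClosure k) p :=
      charP_of_injective_algebraMap (algebraMap k (AlgebraicClosure k)).injective p
    have hd : ((d : ℕ) : AlgebraicClosure k) ≠ 0 := fun h =>
      hpd ((CharP.cast_eq_zero_iff (AlgebraicClosure k) p d).1 h)
    have hx1 : ∀ i, x i ^ (d - 1) = 0 := by
      intro i
      have h1 := hcon i
      rw [map_sum, map_sum, Finset.sum_eq_single i] at h1
      · rw [Derivation.leibniz_pow, pderiv_X_self] at h1
        simp only [nsmul_eq_mul, smul_eq_mul, mul_one, map_mul, map_natCast, map_pow,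
          aeval_X] at h1
        exact (mul_eq_zero.1 h1).resolve_left hd
      · intro j _ hj
        rw [Derivation.leibniz_pow, pderiv_X_of_ne hj]
        simp
      · intro h; exact absurd (Finset.mem_univ _) h
    apply hx
    funext i
    have h1 := hx1 i
    rcases Nat.eq_zero_or_pos (d - 1) with h0 | h0
    · rw [h0, pow_zero] at h1
      exact absurd h1 one_ne_zero
    · exact pow_eq_zero_iff h0.ne' |>.1 h1

end Pool.Agent.Y233.Cd
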