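import Pool.Agent.Y233.Cd.A
import Pool.Agent.Y233.Cd.B
import Pool.Agent.Y233.Cd.C
import Pool.Agent.Y233.Cd.D
import Pool.Agent.Y233.Cd.E
import Pool.Agent.Y233.Cd.G
import Pool.Agent.Y233.Cd.H
import Pool.Agent.Helper346.Cd.CN

set_option autoImplicit false

open MvPolynomial Pool.Agent.Helper346.Cd

namespace Pool.Agent.Y233.Cd

theorem no_twisted_zero {p : ℕ} [Fact p.Prime] {κ K E M : Type} [Field κ] [CharP κ p] [Field K]
    [Algebra (Polynomial κ) K] [IsFractionRing (Polynomial κ) K] [Field E] [Field M]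
    [Algebra K E] [Algebra E M] [Algebra K M] [IsScalarTower K E M] [Algebra.IsSeparable K E]
    [FiniteDimensional E M] [Algebra.IsSeparable E M]
    (hE : ∀ T : IntermediateField K E, FiniteDimensional K T → ¬ p ∣ Module.finrank K T)
    (n d s i : ℕ) (hd : 0 < d) (hsd : p ^ s ∣ d) (his : i < s)
    (h : ¬ p ^ (s - i) ∣ Module.finrank E M) (a : Fin (n + 1) → κ)
    (ha : ∀ y : Fin (n + 1) → κ, ∑ i, a i * y i ^ p = 0 → y = 0)
    (y : Fin (n + 1) → M) (hy : y ≠ 0) :
    ∑ j, algebraMap K M (algebraMap (Polynomial κ) K (Polynomial.C (a j))) ^ p ^ i * y j ^ d +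
      algebraMap K M (algebraMap (Polynomial κ) K Polynomial.X) ^ p ^ i *
        ∑ j : Fin n, y j.castSucc ^ (d - 1) * y j.succ ≠ 0 := by
  intro hsum
  have hpp : p.Prime := Fact.out
  have : Algebra.IsSeparable K M := Algebra.IsSeparable.trans K E M
  have : Algebra.IsIntegral K E := inferInstance
  obtain ⟨T, hTfd, hTdeg, hTy⟩ := descent (p := p) (K := K) (E := E) (M := M) hE (s - i) h y
  have hTsep : Algebra.IsSeparable K T := Algebra.isSeparable_tower_bot_of_isSeparable K T M
  let ι : κ →+* T := (algebraMap K T).comp ((algebraMap (Polynomial κ) K).comp Polynomial.C)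
  let c : T := algebraMap K T (algebraMap (Polynomial κ) K Polynomial.X)
  obtain ⟨O, l, _, _, r, ⟨hlfd, hldeg⟩, -, hι, hc⟩ := exists_good_place_of (κ := κ) (E := T) K
    (p ^ (s - i)) hTdeg ι c (fun a => rfl) rfl
  have hres := aniso_res (p := p) (κ := κ) (l := l) a ha s i d hd hsd his hldeg
  let w : Fin (n + 1) → T := fun j => ⟨y j, hTy j⟩
  have hw : w ≠ 0 := by
    intro h0
    apply hy
    funext j
    exact congrArg (fun t : T => (t : M)) (congrFun h0 j)
  have hc' : ∃ h : c ^ p ^ i ∈ O, r ⟨c ^ p ^ i, h⟩ = 0 := by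
    obtain ⟨hcO, hc0⟩ := hc
    refine ⟨pow_mem hcO _, ?_⟩
    have h1 : (⟨c ^ p ^ i, pow_mem hcO _⟩ : O) = (⟨c, hcO⟩ : O) ^ p ^ i := rfl
    rw [h1, map_pow, hc0, zero_pow (pow_ne_zero _ hpp.ne_zero)]
  refine anisotropic_of_place n d hd (fun j => a j ^ p ^ i) hres ι (c ^ p ^ i) O r hι hc' w hw ?_
  apply Subtype.ext
  have := hsum
  simpa [w, ι, c] using this

theorem dvd_pointField {p : ℕ} [Fact p.Prime] {κ K Ω : Type} [Field κ] [CharP κ p] [Field K]
    [Field Ω] [Algebra (Polynomial κ) K] [IsFractionRing (Polynomial κ) K] [Algebra K Ω]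
    [Algebra.IsSeparable K Ω] (E : IntermediateField K Ω)
    (hE : ∀ T : IntermediateField K Ω, T ≤ E → FiniteDimensional K T → ¬ p ∣ Module.finrank K T)
    (n d s : ℕ) (hd : 0 < d) (hsd : p ^ s ∣ d) (a : Fin (n + 1) → κ)
    (ha : ∀ y : Fin (n + 1) → κ, ∑ i, a i * y i ^ p = 0 → y = 0)
    (x : Fin (n + 1) → AlgebraicClosure E) (hx : x ≠ 0)
    (hx0 : aeval x (dform n d
      (fun i => algebraMap K E (algebraMap (Polynomial κ) K (Polynomial.C (a i))))
      (algebraMap K E (algebraMap (Polynomial κ) K Polynomial.X))) = 0) :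
    p ^ s ∣ Module.finrank E (pointField E x) := by
  by_contra hcon
  have hpp : p.Prime := Fact.out
  have := cr_fin x
  have hCK : CharP K p :=
    charP_of_injective_ringHom (RingHom.injective
      ((algebraMap (Polynomial κ) K).comp Polynomial.C)) p
  have hCE : CharP E p := charP_of_injective_algebraMap (algebraMap K E).injective p
  have hCL : CharP (pointField E x) p :=
    charP_of_injective_algebraMap (algebraMap E (pointField E x)).injective p
  have hxL : ExpChar (pointField E x) p := ExpChar.prime hpp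
  obtain ⟨i, his, hpow, hsep⟩ := exists_sep_pow (p := p) E (pointField E x) s hcon
  obtain ⟨j0, hj0⟩ : ∃ j, x j ≠ 0 := by
    by_contra hcon
    push Not at hcon
    exact hx (funext hcon)
  let u : Fin (n + 1) → pointField E x := fun j =>
    ⟨x j / x j0, IntermediateField.subset_adjoin E _ ⟨j, j0, hj0, rfl⟩⟩
  set A : Fin (n + 1) → E :=
    fun i => algebraMap K E (algebraMap (Polynomial κ) K (Polynomial.C (a i))) with hA
  set c : E := algebraMap K E (algebraMap (Polynomial κ) K Polynomial.X) with hcdef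
  have hu : ∑ j, algebraMap E (pointField E x) (A j) * u j ^ d +
      algebraMap E (pointField E x) c * ∑ j : Fin n, u j.castSucc ^ (d - 1) * u j.succ = 0 := by
    have h1 := hom_scale (dform n d A c) (dform_homogeneous n d hd A c) x (x j0)⁻¹
    rw [hx0, mul_zero, aeval_dform] at h1
    apply Subtype.ext
    simp only [div_eq_inv_mul, u]
    simpa using h1
  let M := separableClosure E (pointField E x)
  let y : Fin (n + 1) → M := fun j => ⟨u j ^ p ^ i, hpow _⟩
  have hyu : ∀ j, ((y j : M) : pointField E x) = u j ^ p ^ i := fun j => rfl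
  have hy : ∑ j, algebraMap E M (A j) ^ p ^ i * y j ^ d +
      algebraMap E M c ^ p ^ i * ∑ j : Fin n, y j.castSucc ^ (d - 1) * y j.succ = 0 := by
    have h1 := congrArg (fun t => t ^ p ^ i) hu
    simp only [add_pow_char_pow, sum_pow_char_pow, mul_pow,
      zero_pow (pow_ne_zero i hpp.ne_zero)] at h1
    apply Subtype.ext
    have h2 : ∀ j, ∀ e : ℕ, (u j ^ e) ^ p ^ i = (u j ^ p ^ i) ^ e := by
      intro j e
      rw [← pow_mul, ← pow_mul, mul_comm]
    simp only [h2] at h1
    simpa [hyu] using h1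
  letI : Algebra K M := ((algebraMap E M).comp (algebraMap K E)).toAlgebra
  haveI : IsScalarTower K E M := IsScalarTower.of_algebraMap_eq (fun _ => rfl)
  have hEsep : Algebra.IsSeparable K E := Algebra.isSeparable_tower_bot_of_isSeparable K E Ω
  have hE' : ∀ T : IntermediateField K E, FiniteDimensional K T → ¬ p ∣ Module.finrank K T := by
    intro T hT
    have h1 : Module.finrank K (IntermediateField.lift T) = Module.finrank K T :=
      (IntermediateField.liftAlgEquiv T).toLinearEquiv.finrank_eq.symm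
    have h2 : FiniteDimensional K (IntermediateField.lift T) :=
      Module.Finite.equiv (IntermediateField.liftAlgEquiv T).toLinearEquiv
    rw [← h1]
    exact hE _ (IntermediateField.lift_le T) h2
  refine no_twisted_zero (p := p) (κ := κ) (K := K) (E := E) (M := M) hE' n d s i hd hsd his hsep
    a ha y ?_ hy
  intro h0
  have h1 := congrArg (fun t : M => ((t : pointField E x) : AlgebraicClosure E)) (congrFun h0 j0)
  have h2 : (x j0 / x j0) ^ p ^ i = 0 := h1
  rw [div_self hj0, one_pow] at h2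
  exact one_ne_zero h2

theorem main (p : ℕ) [Fact p.Prime] (k₀ : Type) [Field k₀] [CharP k₀ p] :
    ∃ (k : Type) (_ : Field k) (_ : Algebra k₀ k), CdLeOne Gal(SeparableClosure k/k) ∧
    (∀ f : Polynomial k, Irreducible f → ∃ t, f.natDegree = p ^ t) ∧
    ∀ n d : ℕ, 1 ≤ n → 1 ≤ d →
      (∃ F : MvPolynomial (Fin (n + 1)) k, F.IsHomogeneous d ∧ IsSmoothHypersurface F ∧
        IsIndex F (p ^ padicValNat p d)) ∧
      (∀ F : MvPolynomial (Fin (n + 1)) k, F.IsHomogeneous d → ∀ m : ℕ, IsIndex F m →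
        m ∣ p ^ padicValNat p d) ∧
      ((∃ F : MvPolynomial (Fin (n + 1)) k, F.IsHomogeneous d ∧ IsSmoothHypersurface F ∧
        ¬ HasRationalPoint F) ↔ p ∣ d) := by
  have hpp : p.Prime := Fact.out
  let κ := FractionRing (MvPolynomial ℕ k₀)
  let K0 := FractionRing (Polynomial κ)
  have : CharP κ p :=
    charP_of_injective_algebraMap (IsFractionRing.injective (MvPolynomial ℕ k₀) κ) p
  have : CharP K0 p :=
    charP_of_injective_algebraMap (IsFractionRing.injective (Polynomial κ) K0) p
  obtain ⟨E, hE1, hE2⟩ := exists_maximal_prime_to p hpp K0 (SeparableClosure K0)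
  have : CharP E p := charP_of_injective_algebraMap (algebraMap K0 E).injective p
  have hirr : ∀ f : Polynomial E, Irreducible f → ∃ t, f.natDegree = p ^ t :=
    irr_pow (fun M _ _ _ h => finrank_eq_one_of_prime_to hE2 M h)
  let toE : k₀ →+* E := (algebraMap K0 E).comp ((algebraMap (Polynomial κ) K0).comp
    (Polynomial.C.comp ((algebraMap (MvPolynomial ℕ k₀) κ).comp MvPolynomial.C)))
  refine ⟨E, inferInstance, toE.toAlgebra, cdLeOne_of hE2, hirr, fun n d hn hd => ?_⟩
  obtain ⟨m, hpm, hdm⟩ : ∃ m, ¬ p ∣ m ∧ d = p ^ padicValNat p d * m := by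
    obtain ⟨m, hm⟩ := pow_padicValNat_dvd (p := p) (n := d)
    refine ⟨m, ?_, hm⟩
    rintro ⟨m', rfl⟩
    apply pow_succ_padicValNat_not_dvd (p := p) (show d ≠ 0 by omega)
    refine ⟨m', ?_⟩
    rw [pow_succ, mul_assoc]
    exact hm
  have key : p ∣ d → ∃ F : MvPolynomial (Fin (n + 1)) E, F.IsHomogeneous d ∧
      IsSmoothHypersurface F ∧ ¬ HasRationalPoint F ∧ IsIndex F (p ^ padicValNat p d) := by
    intro hpd
    let a : Fin (n + 1) → κ := fun i => algebraMap (MvPolynomial ℕ k₀) κ (X (i : ℕ))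
    let A : Fin (n + 1) → E :=
      fun i => algebraMap K0 E (algebraMap (Polynomial κ) K0 (Polynomial.C (a i)))
    let c : E := algebraMap K0 E (algebraMap (Polynomial κ) K0 Polynomial.X)
    have hall : ∀ s : ℕ, p ^ s ∣ d → ∀ e ∈ closedPointDegrees (dform n d A c), p ^ s ∣ e := by
      rintro s hs e ⟨x, hx, hx0, rfl⟩
      exact dvd_pointField E hE1 n d s (by omega) hs a (indep_pow p k₀ n) x hx hx0
    have hrat : ¬ HasRationalPoint (dform n d A c) := by
      intro h
      have h1 := hall 1 (by simpa using hpd) 1 (rational_degree _ h)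
      rw [pow_one] at h1
      exact hpp.one_lt.ne' (Nat.dvd_one.1 h1)
    have hhom := dform_homogeneous n d (by omega) A c
    have hc : c ≠ 0 := by
      show algebraMap K0 E (algebraMap (Polynomial κ) K0 Polynomial.X) ≠ 0
      rw [ne_eq, map_eq_zero_iff _ (algebraMap K0 E).injective,
        map_eq_zero_iff _ (IsFractionRing.injective (Polynomial κ) K0)]
      exact Polynomial.X_ne_zero
    have hs : 1 ≤ padicValNat p d := by
      rcases Nat.eq_zero_or_pos (padicValNat p d) with h0 | h0
      · exfalso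
        rw [h0, pow_zero, one_mul] at hdm
        exact hpm (hdm ▸ hpd)
      · exact h0
    refine ⟨dform n d A c, hhom, ?_, hrat,
      hall _ pow_padicValNat_dvd, fun m' hm' => index_dvd n hn hirr _ d hhom _ m hdm hpm m' hm'⟩
    have hp2 := hpp.two_le
    have hpd' := Nat.le_of_dvd (by omega) hpd
    rcases Nat.lt_or_ge d 3 with h3 | h3
    · have hd2 : d = 2 := by omega
      have hp2' : p = 2 := by omega
      subst hp2'
      subst hd2
      exact quadric_smooth n A c hc hrat
    · refine dform_smooth (p := p) n d h3 hpd A c ?_ hc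
      have h1 : a (Fin.last n) ≠ 0 := by
        show algebraMap (MvPolynomial ℕ k₀) κ (X ((Fin.last n : Fin (n + 1)) : ℕ)) ≠ 0
        rw [ne_eq, map_eq_zero_iff _ (IsFractionRing.injective (MvPolynomial ℕ k₀) κ)]
        exact MvPolynomial.X_ne_zero _
      show algebraMap K0 E (algebraMap (Polynomial κ) K0 (Polynomial.C (a (Fin.last n)))) ≠ 0
      rw [ne_eq, map_eq_zero_iff _ (algebraMap K0 E).injective,
        map_eq_zero_iff _ (IsFractionRing.injective (Polynomial κ) K0), Polynomial.C_eq_zero]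
      exact h1
  refine ⟨?_, fun F hF m' hm' => index_dvd n hn hirr F d hF _ m hdm hpm m' hm'.1, ?_, ?_⟩
  · by_cases hpd : p ∣ d
    · obtain ⟨F, h1, h2, -, h4⟩ := key hpd
      exact ⟨F, h1, h2, h4⟩
    · obtain ⟨h1, h2⟩ := fermat_smooth (p := p) (k := E) n d hpd
      refine ⟨_, h1, h2, ?_⟩
      rw [padicValNat.eq_zero_of_not_dvd hpd, pow_zero]
      exact ⟨fun e _ => one_dvd e, fun m' hm' =>
        hm' 1 (rational_degree _ (rational_of_prime_to n hn hirr _ d h1 hpd))⟩
  · rintro ⟨F, h1, -, h3⟩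
    by_contra hpd
    exact h3 (rational_of_prime_to n hn hirr F d h1 hpd)
  · intro hpd
    obtain ⟨F, h1, h2, h3, -⟩ := key hpd
    exact ⟨F, h1, h2, h3⟩

end Pool.Agent.Y233.Cd
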